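import Mathlib

set_option autoImplicit false
open Set Topology

namespace Pool.Agent.B595.Cont

/-- The circle, written additively. -/
abbrev S1 : Type := AddCircle (1 : ℝ)

/-- The infinite cyclic cover of `X` given by the circle valued map `ψ`. -/
def Cov {X : Type} [TopologicalSpace X] (ψ : C(X, S1)) : Set (X × ℝ) :=
  {p | ψ p.1 = ((p.2 : ℝ) : S1)}

/-- `ψ` lifts to a real function. -/
def Lif {X : Type} [TopologicalSpace X] (ψ : C(X, S1)) : Prop :=
  ∃ θ : C(X, ℝ), ∀ x, ψ x = ((θ x : ℝ) : S1)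

/-- `X` is not the union of the projections of two compact connected subsets of the cover. -/
def NT {X : Type} [TopologicalSpace X] (ψ : C(X, S1)) : Prop :=
  ∀ c c' : Set (X × ℝ), IsCompact c → IsPreconnected c → c ⊆ Cov ψ →
    IsCompact c' → IsPreconnected c' → c' ⊆ Cov ψ →
    Prod.fst '' c ∪ Prod.fst '' c' ≠ univ

/-- every circle valued map lifts or is not tame. -/
def PP (X : Type) [TopologicalSpace X] : Prop := ∀ ψ : C(X, S1), Lif ψ ∨ NT ψ

/-- unicoherence -/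
def Uni (X : Type) [TopologicalSpace X] : Prop :=
  ∀ A B : Set X, IsClosed A → IsClosed B → IsConnected A → IsConnected B →
    A ∪ B = Set.univ → IsConnected (A ∩ B)

/-- mutual aposyndesis -/
def MApo (X : Type) [TopologicalSpace X] : Prop :=
  ∀ x y : X, x ≠ y → ∃ K L : Set X, IsClosed K ∧ IsConnected K ∧ IsClosed L ∧
    IsConnected L ∧ Disjoint K L ∧ x ∈ interior K ∧ y ∈ interior L

/-- nowhere zero complex functions are dense -/
def AP (X : Type) [TopologicalSpace X] : Prop :=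
  ∀ (h : C(X, ℂ)) (ε : ℝ), 0 < ε → ∃ h' : C(X, ℂ), (∀ x, h' x ≠ 0) ∧ ∀ x, ‖h x - h' x‖ < ε

/-- covering dimension at most one -/
def Dim1 (X : Type) [TopologicalSpace X] : Prop :=
  ∀ (n : ℕ) (U : Fin n → Set X), (∀ i, IsOpen (U i)) → (⋃ i, U i) = Set.univ →
    ∃ (m : ℕ) (V : Fin m → Set X), (∀ j, IsOpen (V j)) ∧ (⋃ j, V j) = Set.univ ∧
      (∀ j, ∃ i, V j ⊆ U i) ∧ ∀ x : X, {j : Fin m | x ∈ V j}.ncard ≤ 2

/-- cut-off functions -/
noncomputable def sg (j : ℕ) (a : ℝ) : ℝ := max 0 (min 1 (2 - 2 ^ (j + 1) * a))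

/-- The blow-up of `B` along the zeros of `g` with folding functions `D j`. -/
def Bl {B : Type} [TopologicalSpace B] (g : C(B, ℂ)) (D : ℕ → C(B × S1, ℝ)) :
    Set (B × ℝ × (ℕ → S1)) :=
  {p | 0 ≤ p.2.1 ∧ p.2.1 ≤ 1 ∧ ((1 - p.2.1 : ℝ) : ℂ) * g p.1 = 0 ∧
    g p.1 = (‖g p.1‖ : ℂ) * (AddCircle.toCircle (p.2.2 0) : ℂ) ∧
    ∀ j, p.2.2 j = p.2.2 (j + 1) + ((sg j p.2.1 * D j (p.1, p.2.2 (j + 1)) : ℝ) : S1)}

/-- The folding functions are large and meet every pair of levels of every circle valued map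
over the zeros of `g`. -/
structure GoodD {B : Type} [TopologicalSpace B] (g : C(B, ℂ)) (D : ℕ → C(B × S1, ℝ)) : Prop where
  bd : ∀ j p, |D j p| ≤ 4 ^ (j + 1)
  wall : ∀ (u : C({b : B // g b = 0} × S1, S1)) (j0 : ℕ), ∃ j, j0 ≤ j ∧
    ∀ (f : {b : B // g b = 0}) (t : S1),
      (u (f, t) = 0 → D j (f.1, t) = 4 ^ (j + 1)) ∧
      (u (f, t) = (((1 / 2 : ℝ)) : S1) → D j (f.1, t) = -4 ^ (j + 1))

/-- inverse limit of a sequence -/
def Lim (B : ℕ → Type) [∀ n, TopologicalSpace (B n)] (r : ∀ n, C(B (n + 1), B n)) : Type :=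
  {x : (∀ n, B n) // ∀ n, r n (x (n + 1)) = x n}

instance (B : ℕ → Type) [∀ n, TopologicalSpace (B n)] (r : ∀ n, C(B (n + 1), B n)) :
    TopologicalSpace (Lim B r) :=
  inferInstanceAs (TopologicalSpace {x : (∀ n, B n) // ∀ n, r n (x (n + 1)) = x n})

/-- projections of the inverse limit -/
def prj (B : ℕ → Type) [∀ n, TopologicalSpace (B n)] (r : ∀ n, C(B (n + 1), B n)) (n : ℕ) :
    C(Lim B r, B n) :=
  ⟨fun x => x.1 n, (continuous_apply n).comp continuous_subtype_val⟩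

end Pool.Agent.B595.Cont
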