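import Pool.Agent.B595.Cont.Step

set_option autoImplicit false
open Set Topology

namespace Pool.Agent.B595.Cont

theorem PP_homeo {X Y : Type} [TopologicalSpace X] [TopologicalSpace Y] (e : X ≃ₜ Y)
    (h : PP Y) : PP X := by
  intro ψ
  let ψY : C(Y, S1) := ψ.comp ⟨e.symm, e.symm.continuous⟩
  have hrel : ∀ x, ψ x = ψY ((⟨e, e.continuous⟩ : C(X, Y)) x) +
      (((0 : C(X, ℝ)) x : ℝ) : S1) := by
    intro x
    simp [ψY]
  rcases h ψY with h1 | h1
  · exact Or.inl (Lif_transfer ⟨e, e.continuous⟩ ψ ψY 0 hrel h1)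
  · exact Or.inr (NT_transfer ⟨e, e.continuous⟩ e.surjective ψ ψY 0 hrel h1)

theorem PP_sq {Y : Type} [TopologicalSpace Y] (h : PP Y) :
    PP (Y × unitInterval × unitInterval) :=
  PP_homeo (Homeomorph.prodAssoc Y unitInterval unitInterval).symm (PP_prod (PP_prod h))

/-- dense sequence starting with `0` -/
noncomputable def dseq (B : Type) [TopologicalSpace B] [CompactSpace B]
    [SecondCountableTopology B] [T2Space B] : ℕ → C(B, ℂ)
  | 0 => 0
  | (i + 1) => TopologicalSpace.denseSeq C(B, ℂ) i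

lemma dseq_dense (B : Type) [TopologicalSpace B] [CompactSpace B]
    [SecondCountableTopology B] [T2Space B] (g : C(B, ℂ)) (ε : ℝ) (hε : 0 < ε) :
    ∃ i, ∀ b, ‖g b - dseq B i b‖ < ε := by
  obtain ⟨i, hi⟩ := (TopologicalSpace.denseRange_denseSeq C(B, ℂ)).exists_dist_lt g hε
  refine ⟨i + 1, fun b => ?_⟩
  calc ‖g b - dseq B (i + 1) b‖ = dist (g b) (TopologicalSpace.denseSeq C(B, ℂ) i b) := by
        rw [dist_eq_norm]; rfl
    _ ≤ dist g (TopologicalSpace.denseSeq C(B, ℂ) i) := ContinuousMap.dist_apply_le_dist b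
    _ < ε := hi

/-- a stage of the construction -/
structure Stg : Type 1 where
  Y : Type
  [top : TopologicalSpace Y]
  [cpt : CompactSpace Y]
  [t2 : T2Space Y]
  [sc : SecondCountableTopology Y]
  [con : ConnectedSpace Y]
  pp : PP Y
  q : ℕ → ℕ → C(Y × unitInterval × unitInterval, ℂ)

attribute [instance] Stg.top Stg.cpt Stg.t2 Stg.sc Stg.con

/-- the space of the stage -/
abbrev Stg.B (S : Stg) : Type := S.Y × unitInterval × unitInterval

/-- the function to be treated at stage `m` -/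
def Stg.g (S : Stg) (m : ℕ) : C(S.B, ℂ) := S.q (Nat.unpair m).1 (Nat.unpair m).2

/-- its folding functions -/
noncomputable def Stg.D (S : Stg) (m : ℕ) : ℕ → C(S.B × S1, ℝ) := (exists_goodD (S.g m)).choose

lemma Stg.hD (S : Stg) (m : ℕ) : GoodD (S.g m) (S.D m) := (exists_goodD (S.g m)).choose_spec

instance (S : Stg) (m : ℕ) : ConnectedSpace (Bl (S.g m) (S.D m)) := by
  have hs := bd_surj (S.g m) (S.D m)
  have hpre : IsPreconnected (univ : Set (Bl (S.g m) (S.D m))) := by
    have := J7.preconn_preimage (bd (S.g m) (S.D m)) hs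
      (fun b => fiber_Bl (S.g m) (S.D m) b) isClosed_univ isPreconnected_univ
    simpa using this
  have : PreconnectedSpace (Bl (S.g m) (S.D m)) := ⟨hpre⟩
  obtain ⟨b⟩ : Nonempty S.B := inferInstance
  obtain ⟨p, hp⟩ := hs b
  exact { toNonempty := ⟨p⟩ }

/-- the blow-down followed by the projection -/
noncomputable def Stg.r (S : Stg) (m : ℕ) :
    C(Bl (S.g m) (S.D m) × unitInterval × unitInterval, S.B) :=
  (bd (S.g m) (S.D m)).comp ⟨Prod.fst, continuous_fst⟩

open Classical in
/-- next stage -/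
noncomputable def Stg.next (S : Stg) (m : ℕ) : Stg where
  Y := Bl (S.g m) (S.D m)
  pp := PP_Bl (S.g m) (S.D m) (S.hD m) (PP_sq S.pp)
  q := fun n i => if n ≤ m then (S.q n i).comp (S.r m)
    else dseq (Bl (S.g m) (S.D m) × unitInterval × unitInterval) i


lemma Stg.r_surj (S : Stg) (m : ℕ) : Function.Surjective (S.r m) :=
  (bd_surj (S.g m) (S.D m)).comp Prod.fst_surjective

lemma Stg.r_mono (S : Stg) (m : ℕ) (b : S.B) : IsPreconnected (S.r m ⁻¹' {b}) := by
  have h : S.r m ⁻¹' {b} = {p : Bl (S.g m) (S.D m) | p.1.1 = b} ×ˢ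
      (univ : Set (unitInterval × unitInterval)) := by
    ext x
    simp only [mem_preimage, mem_singleton_iff, mem_prod, mem_ofPred_eq, mem_univ, and_true]
    rfl
  rw [h]
  exact (fiber_Bl (S.g m) (S.D m) b).prod isPreconnected_univ

/-- the angle -/
def Stg.G (S : Stg) (m : ℕ) : C(Bl (S.g m) (S.D m) × unitInterval × unitInterval, S1) :=
  ⟨fun x => x.1.1.2.2 0, by fun_prop⟩

lemma Stg.G_spec (S : Stg) (m : ℕ) (x : Bl (S.g m) (S.D m) × unitInterval × unitInterval) :
    S.g m (S.r m x) = (‖S.g m (S.r m x)‖ : ℂ) * (AddCircle.toCircle (S.G m x) : ℂ) :=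
  x.1.2.2.2.2.1

lemma Stg.next_q_le (S : Stg) (m n i : ℕ) (h : n ≤ m) :
    (S.next m).q n i = (S.q n i).comp (S.r m) := if_pos h

lemma Stg.next_q_gt (S : Stg) (m n i : ℕ) (h : ¬ n ≤ m) :
    (S.next m).q n i = dseq (S.next m).B i := if_neg h

/-- the sequence of stages -/
noncomputable def seq : ℕ → Stg
  | 0 => { Y := Unit, pp := PP_of_unit, q := fun _ i => dseq (Unit × unitInterval × unitInterval) i }
  | (m + 1) => (seq m).next m

/-- the spaces -/
abbrev BB (n : ℕ) : Type := (seq n).B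

/-- the bonding maps -/
noncomputable def rr (n : ℕ) : C(BB (n + 1), BB n) := (seq n).r n

/-- the limit -/
abbrev XL : Type := Lim BB rr

lemma rr_surj (n : ℕ) : Function.Surjective (rr n) := (seq n).r_surj n
lemma rr_mono (n : ℕ) (b : BB n) : IsPreconnected (rr n ⁻¹' {b}) := (seq n).r_mono n b

lemma q_diag (n i : ℕ) : (seq n).q n i = dseq (BB n) i := by
  cases n with
  | zero => rfl
  | succ m => exact (seq m).next_q_gt m (m + 1) i (by omega)

lemma q_succ (m n i : ℕ) (h : n ≤ m) : (seq (m + 1)).q n i = ((seq m).q n i).comp (rr m) :=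
  (seq m).next_q_le m n i h

instance : CompactSpace XL := lim_compact BB rr
instance : T2Space XL := lim_t2 BB rr
instance : ConnectedSpace XL := lim_connected BB rr rr_surj rr_mono
instance : SecondCountableTopology (∀ n, BB n) := inferInstance
instance : SecondCountableTopology XL :=
  TopologicalSpace.Subtype.secondCountableTopology _

lemma q_rel (n m i : ℕ) (h : n ≤ m) (x : XL) :
    (seq m).q n i (prj BB rr m x) = (seq n).q n i (prj BB rr n x) := by
  induction m, h using Nat.le_induction with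
  | base => rfl
  | succ m hm ih =>
    rw [q_succ m n i hm, ContinuousMap.comp_apply, J7.prj_rel, ih]

lemma prjs (n : ℕ) : Function.Surjective (prj BB rr n) := prj_surjective BB rr rr_surj n

theorem AP_XL : AP XL := by
  intro h ε hε
  obtain ⟨n, g, hg⟩ := lim_dense BB rr prjs h (ε / 3) (by linarith)
  obtain ⟨i, hi⟩ := dseq_dense (BB n) g (ε / 3) (by linarith)
  obtain ⟨m, hm⟩ : ∃ m, m = Nat.pair n i := ⟨_, rfl⟩
  have hnm : n ≤ m := by rw [hm]; exact Nat.left_le_pair n i
  have hgm : ∀ x : XL, (seq m).g m (prj BB rr m x) = dseq (BB n) i (prj BB rr n x) := by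
    intro x
    have e1 : (seq m).g m = (seq m).q n i := by
      show (seq m).q (Nat.unpair m).1 (Nat.unpair m).2 = _
      rw [hm, Nat.unpair_pair]
    rw [e1, q_rel n m i hnm x, q_diag]
  let G : C(XL, S1) := ((seq m).G m).comp (prj BB rr (m + 1))
  have hG : ∀ x : XL, (seq m).g m (prj BB rr m x) =
      (‖(seq m).g m (prj BB rr m x)‖ : ℂ) * (AddCircle.toCircle (G x) : ℂ) := by
    intro x
    have := (seq m).G_spec m (prj BB rr (m + 1) x)
    have e : (seq m).r m (prj BB rr (m + 1) x) = prj BB rr m x := J7.prj_rel BB rr m x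
    rw [e] at this
    exact this
  have hn : Continuous (fun x : XL => ‖(seq m).g m (prj BB rr m x)‖) :=
    (((seq m).g m).continuous.comp (prj BB rr m).continuous).norm
  refine ⟨⟨fun x => ((max ‖(seq m).g m (prj BB rr m x)‖ (ε / 4) : ℝ) : ℂ) *
    (AddCircle.toCircle (G x) : ℂ), ?_⟩, ?_, ?_⟩
  · refine (Complex.continuous_ofReal.comp (hn.max continuous_const)).mul ?_
    exact continuous_subtype_val.comp (AddCircle.continuous_toCircle.comp G.continuous)
  · intro x
    refine mul_ne_zero ?_ (Circle.coe_ne_zero _)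
    have : (0 : ℝ) < max ‖(seq m).g m (prj BB rr m x)‖ (ε / 4) :=
      lt_max_of_lt_right (by linarith)
    exact_mod_cast this.ne'
  · intro x
    show ‖h x - ((max ‖(seq m).g m (prj BB rr m x)‖ (ε / 4) : ℝ) : ℂ) *
      (AddCircle.toCircle (G x) : ℂ)‖ < ε
    have h3 : ‖(seq m).g m (prj BB rr m x) -
        ((max ‖(seq m).g m (prj BB rr m x)‖ (ε / 4) : ℝ) : ℂ) *
          (AddCircle.toCircle (G x) : ℂ)‖ ≤ ε / 4 := by
      nth_rewrite 1 [hG x]
      rw [← sub_mul, norm_mul, Circle.norm_coe, mul_one, ← Complex.ofReal_sub,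
        Complex.norm_real, Real.norm_eq_abs, abs_le]
      constructor
      · rcases max_cases ‖(seq m).g m (prj BB rr m x)‖ (ε / 4) with h | h <;>
          linarith [norm_nonneg ((seq m).g m (prj BB rr m x)), h.1]
      · linarith [le_max_left ‖(seq m).g m (prj BB rr m x)‖ (ε / 4)]
    have h1 := hg x
    have h2 := hi (prj BB rr n x)
    rw [← hgm x] at h2
    calc _ = ‖(h x - g (prj BB rr n x)) + (g (prj BB rr n x) - (seq m).g m (prj BB rr m x)) +
          ((seq m).g m (prj BB rr m x) -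
            ((max ‖(seq m).g m (prj BB rr m x)‖ (ε / 4) : ℝ) : ℂ) *
              (AddCircle.toCircle (G x) : ℂ))‖ := by congr 1; ring
      _ ≤ _ := norm_add₃_le
      _ < ε := by linarith

theorem not_lc_XL : ¬ LocallyConnectedSpace XL := by
  intro hlc
  have hg : ∀ b, (seq 0).g 0 b = 0 := by
    intro b
    have : (seq 0).g 0 = dseq (BB 0) 0 := by
      show (seq 0).q (Nat.unpair 0).1 (Nat.unpair 0).2 = _
      rw [Nat.unpair_zero]
      exact q_diag 0 0
    rw [this]
    rfl
  have h1 := NT_angle ((seq 0).g 0) ((seq 0).D 0) hg ((seq 0).hD 0)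
  let p1 : C(XL, Bl ((seq 0).g 0) ((seq 0).D 0)) :=
    (⟨Prod.fst, continuous_fst⟩ : C(BB 1, Bl ((seq 0).g 0) ((seq 0).D 0))).comp (prj BB rr 1)
  have hp1 : Function.Surjective p1 := Prod.fst_surjective.comp (prjs 1)
  let ψ := (⟨fun e => e.1.2.2 0, by fun_prop⟩ : C(Bl ((seq 0).g 0) ((seq 0).D 0), S1))
  have h2 : NT (ψ.comp p1) :=
    NT_transfer p1 hp1 (ψ.comp p1) ψ 0 (fun x => by simp) h1
  exact not_NT_of_lc _ h2

theorem uni_XL : Uni XL := lim_uni BB rr rr_surj rr_mono (fun n => uni_of_PP (PP_sq (seq n).pp))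

theorem mapo_XL : MApo XL := lim_mapo BB rr rr_surj rr_mono (fun _ => mapo_prod)

theorem dim_XL : Dim1 XL := dim1_of_AP AP_XL

end Pool.Agent.B595.Cont
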