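import Pool.Agent.B595.Cont.Defs

set_option autoImplicit false
open Set Topology

namespace Pool.Agent.B595.Cont.J1




theorem const_of_int {X : Type} [TopologicalSpace X] {A : Set X} (hA : IsPreconnected A)
    {f : X → ℝ} (hf : Continuous f) (hint : ∀ x ∈ A, ((f x : ℝ) : S1) = 0) :
    ∀ x ∈ A, ∀ y ∈ A, f x = f y := by
  have key : ∀ x ∈ A, ∀ y ∈ A, ¬ f x < f y := by
    intro x hx y hy hlt
    obtain ⟨n, hn⟩ := (AddCircle.coe_eq_zero_iff (1 : ℝ)).1 (hint x hx)
    obtain ⟨m, hm⟩ := (AddCircle.coe_eq_zero_iff (1 : ℝ)).1 (hint y hy)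
    have hn' : (n : ℝ) = f x := by simpa using hn
    have hm' : (m : ℝ) = f y := by simpa using hm
    have hnm : n < m := by
      have : (n : ℝ) < m := by rw [hn', hm']; exact hlt
      exact_mod_cast this
    have hnm1 : (n : ℝ) + 1 ≤ m := by exact_mod_cast hnm
    have hmem : (n : ℝ) + 1 / 2 ∈ Icc (f x) (f y) := by
      constructor
      · rw [← hn']; linarith
      · rw [← hm']; linarith
    obtain ⟨z, hz, hfz⟩ := hA.intermediate_value hx hy hf.continuousOn hmem
    obtain ⟨k, hk⟩ := (AddCircle.coe_eq_zero_iff (1 : ℝ)).1 (hint z hz)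
    have hk' : (k : ℝ) = f z := by simpa using hk
    rw [hfz] at hk'
    have h2 : (2 * k : ℝ) = 2 * n + 1 := by linarith
    have h3 : 2 * k = 2 * n + 1 := by exact_mod_cast h2
    omega
  intro x hx y hy
  rcases lt_trichotomy (f x) (f y) with h | h | h
  · exact absurd h (key x hx y hy)
  · exact h
  · exact absurd h (key y hy x hx)

/-- JOB: unicoherence from property `PP`. -/
theorem uni_of_PP {X : Type} [TopologicalSpace X] [CompactSpace X] [T2Space X] [ConnectedSpace X]
    (h : PP X) : Uni X := by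
  intro A B hA hB hAc hBc hAB
  constructor
  · have hu : IsPreconnected (Set.univ : Set X) := isPreconnected_univ
    have := isPreconnected_closed_iff.1 hu A B hA hB (by rw [hAB]) (by simpa using hAc.nonempty)
      (by simpa using hBc.nonempty)
    simpa using this
  by_contra hcon
  rw [isPreconnected_closed_iff] at hcon
  push Not at hcon
  obtain ⟨P', Q', hP', hQ', hcov, hPne, hQne, hdis⟩ := hcon
  set P := (A ∩ B) ∩ P' with hPdef
  set Q := (A ∩ B) ∩ Q' with hQdef
  have hPc : IsClosed P := (hA.inter hB).inter hP'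
  have hQc : IsClosed Q := (hA.inter hB).inter hQ'
  have hPQ : Disjoint P Q := by
    rw [Set.disjoint_left]
    intro x hxP hxQ
    have : x ∈ (A ∩ B) ∩ (P' ∩ Q') := ⟨hxP.1, hxP.2, hxQ.2⟩
    rw [hdis] at this
    exact this
  have hun : ∀ x, x ∈ A → x ∈ B → x ∈ P ∨ x ∈ Q := by
    intro x hxA hxB
    rcases hcov ⟨hxA, hxB⟩ with hx | hx
    · exact Or.inl ⟨⟨hxA, hxB⟩, hx⟩
    · exact Or.inr ⟨⟨hxA, hxB⟩, hx⟩
  obtain ⟨u, hu0, hu1, -⟩ := exists_continuous_zero_one_of_isClosed hPc hQc hPQ
  have hhalf : (((1 / 2 : ℝ)) : S1) = ((-(1 / 2) : ℝ) : S1) := by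
    have e : (((1 / 2 : ℝ)) : S1) = (((-(1 / 2) : ℝ) + 1 : ℝ) : S1) := by
      congr 1
      norm_num
    rw [e, AddCircle.coe_add, AddCircle.coe_period, add_zero]
  have hagree : ∀ x, x ∈ A → x ∈ B → ((u x / 2 : ℝ) : S1) = ((-(u x / 2) : ℝ) : S1) := by
    intro x hxA hxB
    rcases hun x hxA hxB with hx | hx
    · have : u x = 0 := hu0 hx
      rw [this]; simp
    · have : u x = 1 := hu1 hx
      rw [this]; exact hhalf
  classical
  set g : X → S1 := fun x => if x ∈ A then ((u x / 2 : ℝ) : S1) else ((-(u x / 2) : ℝ) : S1) with hg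
  have hgA : ∀ x ∈ A, g x = ((u x / 2 : ℝ) : S1) := by
    intro x hx
    simp only [hg, if_pos hx]
  have hgB : ∀ x ∈ B, g x = ((-(u x / 2) : ℝ) : S1) := by
    intro x hx
    by_cases hxA : x ∈ A
    · rw [hgA x hxA]; exact hagree x hxA hx
    · simp only [hg, if_neg hxA]
  have hc1 : Continuous (fun x => ((u x / 2 : ℝ) : S1)) :=
    (AddCircle.continuous_mk' (1 : ℝ)).comp (u.continuous.div_const 2)
  have hc2 : Continuous (fun x => ((-(u x / 2) : ℝ) : S1)) :=
    (AddCircle.continuous_mk' (1 : ℝ)).comp (u.continuous.div_const 2).neg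
  have hgc : Continuous g := by
    rw [← continuousOn_univ, ← hAB]
    refine ContinuousOn.union_of_isClosed ?_ ?_ hA hB
    · exact hc1.continuousOn.congr hgA
    · exact hc2.continuousOn.congr hgB
  rcases h ⟨g, hgc⟩ with hL | hN
  · obtain ⟨θ, hθ⟩ := hL
    have hθ' : ∀ x, g x = ((θ x : ℝ) : S1) := hθ
    have hcA : ∀ x ∈ A, ∀ y ∈ A, θ x - u x / 2 = θ y - u y / 2 := by
      refine const_of_int hAc.isPreconnected (f := fun x => θ x - u x / 2)
        (θ.continuous.sub (u.continuous.div_const 2)) ?_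
      intro x hx
      rw [AddCircle.coe_sub, ← hθ' x, hgA x hx, sub_self]
    have hcB : ∀ x ∈ B, ∀ y ∈ B, θ x + u x / 2 = θ y + u y / 2 := by
      refine const_of_int hBc.isPreconnected (f := fun x => θ x + u x / 2)
        (θ.continuous.add (u.continuous.div_const 2)) ?_
      intro x hx
      rw [AddCircle.coe_add, ← hθ' x, hgB x hx, AddCircle.coe_neg, neg_add_cancel]
    obtain ⟨p, hp⟩ := hPne
    obtain ⟨q, hq⟩ := hQne
    have hup : u p = 0 := hu0 hp
    have huq : u q = 1 := hu1 hq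
    have h1 := hcA p hp.1.1 q hq.1.1
    have h2 := hcB p hp.1.2 q hq.1.2
    rw [hup, huq] at h1 h2
    linarith
  · refine hN ((fun x => (x, u x / 2)) '' A) ((fun x => (x, -(u x / 2))) '' B) ?_ ?_ ?_ ?_ ?_ ?_ ?_
    · exact hA.isCompact.image (continuous_id.prodMk (u.continuous.div_const 2))
    · exact hAc.isPreconnected.image _ (continuous_id.prodMk (u.continuous.div_const 2)).continuousOn
    · rintro _ ⟨x, hx, rfl⟩
      exact hgA x hx
    · exact hB.isCompact.image (continuous_id.prodMk (u.continuous.div_const 2).neg)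
    · exact hBc.isPreconnected.image _ (continuous_id.prodMk (u.continuous.div_const 2).neg).continuousOn
    · rintro _ ⟨x, hx, rfl⟩
      exact hgB x hx
    · rw [Set.image_image, Set.image_image]
      simpa using hAB

end Pool.Agent.B595.Cont.J1
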