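import Pool.Agent.B595.Cont.Defs

set_option autoImplicit false
open Set Topology

namespace Pool.Agent.B595.Cont.J10




theorem gd_half_ne : (((1 / 2 : ℝ)) : S1) ≠ 0 := by
  intro h
  rw [AddCircle.coe_eq_zero_iff] at h
  obtain ⟨n, hn⟩ := h
  have h1 : (n : ℝ) = 1 / 2 := by simpa using hn
  have h2 : (2 * n : ℤ) = 1 := by
    have : (2 * n : ℝ) = 1 := by rw [h1]; norm_num
    exact_mod_cast this
  omega

theorem gd_closed {B : Type} [TopologicalSpace B] [CompactSpace B] [T2Space B] (g : C(B, ℂ))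
    (u : C({b : B // g b = 0} × S1, S1)) (c : S1) :
    IsClosed ((fun p : {b : B // g b = 0} × S1 => (p.1.1, p.2)) '' {p | u p = c}) := by
  have h1 : IsClosed {b : B | g b = 0} := isClosed_eq g.continuous continuous_const
  have h2 : CompactSpace {b : B // g b = 0} := isCompact_iff_compactSpace.mp h1.isCompact
  have h3 : IsClosed {p : {b : B // g b = 0} × S1 | u p = c} :=
    isClosed_eq u.continuous continuous_const
  have h4 : Continuous (fun p : {b : B // g b = 0} × S1 => (p.1.1, p.2)) := by fun_prop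
  exact (h3.isCompact.image h4).isClosed

/-- JOB: existence of good folding functions. -/
theorem exists_goodD {B : Type} [TopologicalSpace B] [CompactSpace B] [T2Space B]
    [SecondCountableTopology B] (g : C(B, ℂ)) : ∃ D : ℕ → C(B × S1, ℝ), GoodD g D := by
  have : SecondCountableTopology S1 := inferInstance
  have : SecondCountableTopology C(B × S1, ℝ) := inferInstance
  obtain ⟨d, hd⟩ := TopologicalSpace.exists_dense_seq C(B × S1, ℝ)
  refine ⟨fun j => ⟨fun p => 4 ^ (j + 1) * max (-1) (min 1 (d (Nat.unpair j).1 p)), by fun_prop⟩,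
    ?_, ?_⟩
  · intro j p
    change |4 ^ (j + 1) * max (-1) (min 1 (d (Nat.unpair j).1 p))| ≤ 4 ^ (j + 1)
    rw [abs_mul, abs_of_pos (by positivity)]
    have h1 : |max (-1) (min 1 (d (Nat.unpair j).1 p))| ≤ 1 := by
      rw [abs_le]
      exact ⟨le_max_left _ _, max_le (by norm_num) (min_le_left _ _)⟩
    calc (4 : ℝ) ^ (j + 1) * |max (-1) (min 1 (d (Nat.unpair j).1 p))| ≤ 4 ^ (j + 1) * 1 := by
          gcongr
      _ = 4 ^ (j + 1) := mul_one _
  · intro u j0
    have hc0 := gd_closed g u 0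
    have hc1 := gd_closed g u (((1 / 2 : ℝ)) : S1)
    have hdis : Disjoint
        ((fun p : {b : B // g b = 0} × S1 => (p.1.1, p.2)) '' {p | u p = (((1 / 2 : ℝ)) : S1)})
        ((fun p : {b : B // g b = 0} × S1 => (p.1.1, p.2)) '' {p | u p = 0}) := by
      rw [Set.disjoint_left]
      rintro _ ⟨p, hp, rfl⟩ ⟨q, hq, hpq⟩
      rw [Prod.mk.injEq] at hpq
      have e : q = p := Prod.ext (Subtype.ext hpq.1) hpq.2
      rw [e] at hq
      have hp' : u p = (((1 / 2 : ℝ)) : S1) := hp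
      have hq' : u p = 0 := hq
      exact gd_half_ne (hp'.symm.trans hq')
    obtain ⟨f, hf1, hf0, _⟩ := exists_continuous_zero_one_of_isClosed hc1 hc0 hdis
    obtain ⟨i, hi⟩ := hd.exists_dist_lt (⟨fun p => 4 * f p - 2, by fun_prop⟩ : C(B × S1, ℝ))
      (show (0 : ℝ) < 1 / 2 by norm_num)
    have hdi : ∀ p, |4 * f p - 2 - d i p| < 1 / 2 := by
      intro p
      have h1 := ContinuousMap.dist_apply_le_dist (f := (⟨fun p => 4 * f p - 2, by fun_prop⟩ :
        C(B × S1, ℝ))) (g := d i) p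
      rw [Real.dist_eq] at h1
      exact lt_of_le_of_lt h1 hi
    refine ⟨Nat.pair i j0, Nat.right_le_pair i j0, ?_⟩
    intro x t
    change (u (x, t) = 0 → 4 ^ (Nat.pair i j0 + 1)
        * max (-1) (min 1 (d (Nat.unpair (Nat.pair i j0)).1 (x.1, t))) = 4 ^ (Nat.pair i j0 + 1)) ∧
      (u (x, t) = (((1 / 2 : ℝ)) : S1) → 4 ^ (Nat.pair i j0 + 1)
        * max (-1) (min 1 (d (Nat.unpair (Nat.pair i j0)).1 (x.1, t)))
          = - 4 ^ (Nat.pair i j0 + 1))
    rw [Nat.unpair_pair]
    change (u (x, t) = 0 → 4 ^ (Nat.pair i j0 + 1)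
        * max (-1) (min 1 (d i (x.1, t))) = 4 ^ (Nat.pair i j0 + 1)) ∧
      (u (x, t) = (((1 / 2 : ℝ)) : S1) → 4 ^ (Nat.pair i j0 + 1)
        * max (-1) (min 1 (d i (x.1, t))) = - 4 ^ (Nat.pair i j0 + 1))
    have hx := hdi (x.1, t)
    rw [abs_lt] at hx
    constructor
    · intro hu
      have h1 : f (x.1, t) = 1 := hf0 ⟨(x, t), hu, rfl⟩
      rw [h1] at hx
      have h2 : min 1 (d i (x.1, t)) = 1 := min_eq_left (by linarith [hx.2])
      rw [h2, max_eq_right (by norm_num), mul_one]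
    · intro hu
      have h1 : f (x.1, t) = 0 := hf1 ⟨(x, t), hu, rfl⟩
      rw [h1] at hx
      have h2 : min 1 (d i (x.1, t)) = d i (x.1, t) := min_eq_right (by linarith [hx.1])
      rw [h2, max_eq_left (by linarith [hx.1]), mul_neg, mul_one]

end Pool.Agent.B595.Cont.J10
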