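import Pool.Agent.B595.Cont.Defs

set_option autoImplicit false
open Set Topology

namespace Pool.Agent.B595.Cont.J11





theorem continuous_sg (j : ℕ) : Continuous (sg j) := by unfold sg; fun_prop

theorem sg_one (j : ℕ) : sg j 1 = 0 := by
  unfold sg
  have : (2:ℝ) ≤ 2 ^ (j + 1) := by
    calc (2:ℝ) = 2 ^ 1 := by norm_num
      _ ≤ 2 ^ (j + 1) := pow_le_pow_right₀ (by norm_num) (by omega)
  rw [max_eq_left]
  refine (min_le_right _ _).trans ?_
  linarith

theorem sg_zero_of_le {j i : ℕ} (h : j + 1 ≤ i) : sg i ((1 / 2 : ℝ) ^ (j + 1)) = 0 := by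
  unfold sg
  have h1 : (2:ℝ) ≤ 2 ^ (i + 1) * (1 / 2 : ℝ) ^ (j + 1) := by
    have h2 : (2:ℝ) ^ (j + 1) * (1/2:ℝ) ^ (j+1) = 1 := by
      rw [← mul_pow]; norm_num
    calc (2:ℝ) = 2 * (2 ^ (j + 1) * (1/2:ℝ) ^ (j+1)) := by rw [h2]; norm_num
      _ = 2 ^ (j + 1 + 1) * (1/2:ℝ)^(j+1) := by ring
      _ ≤ 2 ^ (i + 1) * (1 / 2 : ℝ) ^ (j + 1) := by
        gcongr
        · norm_num
  rw [max_eq_left]
  refine (min_le_right _ _).trans ?_
  linarith

theorem exists_toCircle (w : Circle) : ∃ t : S1, AddCircle.toCircle t = w := by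
  refine ⟨((Complex.arg w / (2 * Real.pi) : ℝ) : S1), ?_⟩
  rw [AddCircle.toCircle_apply_mk]
  rw [show 2 * Real.pi / 1 * (Complex.arg w / (2 * Real.pi)) = Complex.arg w by
    have := Real.pi_ne_zero
    field_simp]
  exact Circle.exp_arg w

theorem exists_toCircle' (z : ℂ) : ∃ t : S1, z = (‖z‖ : ℂ) * (AddCircle.toCircle t : ℂ) := by
  by_cases hz : z = 0
  · exact ⟨0, by simp [hz]⟩
  · have hz' : (‖z‖ : ℂ) ≠ 0 := by exact_mod_cast (norm_ne_zero_iff.mpr hz)
    have h1 : ‖z / (‖z‖ : ℂ)‖ = 1 := by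
      rw [norm_div, Complex.norm_real, norm_norm, div_self (norm_ne_zero_iff.mpr hz)]
    obtain ⟨t, ht⟩ := exists_toCircle ⟨z / (‖z‖ : ℂ), mem_sphere_zero_iff_norm.mpr h1⟩
    refine ⟨t, ?_⟩
    rw [ht]
    show z = (‖z‖ : ℂ) * (z / (‖z‖ : ℂ))
    field_simp

/-- decreasing intersections of compact preconnected sets -/
theorem preconn_iInter {X : Type} [TopologicalSpace X] [T2Space X] (s : ℕ → Set X)
    (hc : ∀ n, IsCompact (s n)) (hp : ∀ n, IsPreconnected (s n)) (ha : ∀ n, s (n + 1) ⊆ s n) :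
    IsPreconnected (⋂ n, s n) := by
  have hanti : Antitone s := antitone_nat_of_succ_le ha
  have hSc : IsCompact (⋂ n, s n) :=
    (hc 0).of_isClosed_subset (isClosed_iInter fun n => (hc n).isClosed) (iInter_subset _ 0)
  rw [isPreconnected_closed_iff]
  intro t t' ht ht' hsub h1 h2
  by_contra hne
  rw [not_nonempty_iff_eq_empty] at hne
  have hK1 : IsCompact ((⋂ n, s n) ∩ t) := hSc.inter_right ht
  have hK2 : IsCompact ((⋂ n, s n) ∩ t') := hSc.inter_right ht'
  have hd : Disjoint ((⋂ n, s n) ∩ t) ((⋂ n, s n) ∩ t') := by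
    rw [Set.disjoint_iff_inter_eq_empty, ← hne]
    ext x; simp only [mem_inter_iff]; tauto
  obtain ⟨U, V, hU, hV, hKU, hKV, hUV⟩ := SeparatedNhds.of_isCompact_isCompact hK1 hK2 hd
  have hex : ∃ n, s n ⊆ U ∪ V := by
    have := exists_subset_nhds_of_isCompact' (V := s) (directed_of_isDirected_le (fun i j hij => hanti hij))
      hc (fun n => (hc n).isClosed) (U := U ∪ V) (fun x hx => by
        apply (hU.union hV).mem_nhds
        rcases hsub hx with h | h
        · exact Or.inl (hKU ⟨hx, h⟩)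
        · exact Or.inr (hKV ⟨hx, h⟩))
    exact this
  obtain ⟨n, hn⟩ := hex
  obtain ⟨x, hx⟩ := h1
  obtain ⟨y, hy⟩ := h2
  have hin : (⋂ n, s n) ⊆ s n := iInter_subset _ n
  obtain ⟨z, hz⟩ := hp n U V hU hV hn ⟨x, hin hx.1, hKU hx⟩ ⟨y, hin hy.1, hKV hy⟩
  exact (hUV.le_bot ⟨hz.2.1, hz.2.2⟩ : z ∈ (⊥ : Set X))

section
variable {B : Type} [TopologicalSpace B] (D : ℕ → C(B × S1, ℝ))

/-- filling in the coordinates below `j` -/
noncomputable def GG (D : ℕ → C(B × S1, ℝ)) (b : B) (a : ℝ) : ℕ → (ℕ → S1) → (ℕ → S1)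
  | 0, u => u
  | j + 1, u => GG D b a j (Function.update u j (u (j + 1) + ((sg j a * D j (b, u (j + 1)) : ℝ) : S1)))

theorem GG_of_ge (b : B) (a : ℝ) (j : ℕ) (u : ℕ → S1) (i : ℕ) (h : j ≤ i) : GG D b a j u i = u i := by
  induction j generalizing u with
  | zero => rfl
  | succ j ih =>
    rw [GG, ih _ (by omega), Function.update_of_ne (by omega)]

theorem GG_constr (b : B) (a : ℝ) (j : ℕ) (u : ℕ → S1) (i : ℕ) (h : i < j) :
    GG D b a j u i = GG D b a j u (i + 1) + ((sg i a * D i (b, GG D b a j u (i + 1)) : ℝ) : S1) := by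
  induction j generalizing u with
  | zero => omega
  | succ j ih =>
    rw [GG]
    rcases Nat.lt_succ_iff_lt_or_eq.mp h with h1 | h1
    · exact ih _ h1
    · subst h1
      rw [GG_of_ge D b a i _ i le_rfl, GG_of_ge D b a i _ (i + 1) (by omega)]
      rw [Function.update_self, Function.update_of_ne (by omega)]

theorem GG_fix (b : B) (a : ℝ) (j : ℕ) (u : ℕ → S1)
    (h : ∀ i, i < j → u i = u (i + 1) + ((sg i a * D i (b, u (i + 1)) : ℝ) : S1)) :
    GG D b a j u = u := by
  induction j generalizing u with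
  | zero => rfl
  | succ j ih =>
    rw [GG, ← h j (by omega), Function.update_eq_self]
    exact ih u (fun i hi => h i (by omega))

theorem GG_cont (b : B) (j : ℕ) : Continuous (fun p : ℝ × (ℕ → S1) => GG D b p.1 j p.2) := by
  induction j with
  | zero => exact continuous_snd
  | succ j ih =>
    have h1 : Continuous (fun p : ℝ × (ℕ → S1) =>
        (p.1, Function.update p.2 j (p.2 (j + 1) + ((sg j p.1 * D j (b, p.2 (j + 1)) : ℝ) : S1)))) := by
      refine continuous_fst.prodMk (continuous_snd.update j ?_)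
      refine ((continuous_apply (j+1)).comp continuous_snd).add ?_
      refine (AddCircle.continuous_mk' (1:ℝ)).comp ?_
      refine ((continuous_sg j).comp continuous_fst).mul ?_
      exact (D j).continuous.comp (continuous_const.prodMk ((continuous_apply (j+1)).comp continuous_snd))
    exact ih.comp h1

end

section
variable {B : Type} [TopologicalSpace B] [CompactSpace B] [T2Space B]
  (g : C(B, ℂ)) (D : ℕ → C(B × S1, ℝ))

/-- JOB part 1 -/
theorem isCompact_Bl : IsCompact (Bl g D) := by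
  have hK : IsCompact ((univ : Set B) ×ˢ (Icc (0:ℝ) 1 ×ˢ (univ : Set (ℕ → S1)))) :=
    isCompact_univ.prod (isCompact_Icc.prod isCompact_univ)
  refine hK.of_isClosed_subset ?_ ?_
  · have : Bl g D = {p | 0 ≤ p.2.1} ∩ ({p | p.2.1 ≤ 1} ∩ ({p | ((1 - p.2.1 : ℝ) : ℂ) * g p.1 = 0} ∩
        ({p | g p.1 = (‖g p.1‖ : ℂ) * (AddCircle.toCircle (p.2.2 0) : ℂ)} ∩
        ⋂ j, {p | p.2.2 j = p.2.2 (j + 1) + ((sg j p.2.1 * D j (p.1, p.2.2 (j + 1)) : ℝ) : S1)}))) := by
      ext p
      constructor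
      · rintro ⟨h1, h2, h3, h4, h5⟩
        exact ⟨h1, h2, h3, h4, mem_iInter.mpr h5⟩
      · rintro ⟨h1, h2, h3, h4, h5⟩
        exact ⟨h1, h2, h3, h4, mem_iInter.mp h5⟩
    rw [this]
    have ha : Continuous (fun p : B × ℝ × (ℕ → S1) => p.2.1) := continuous_fst.comp continuous_snd
    have hb : Continuous (fun p : B × ℝ × (ℕ → S1) => g p.1) := g.continuous.comp continuous_fst
    have ht : ∀ j, Continuous (fun p : B × ℝ × (ℕ → S1) => p.2.2 j) := fun j =>
      (continuous_apply j).comp (continuous_snd.comp continuous_snd)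
    refine IsClosed.inter ?_ (IsClosed.inter ?_ (IsClosed.inter ?_ (IsClosed.inter ?_ ?_)))
    · exact isClosed_le continuous_const ha
    · exact isClosed_le ha continuous_const
    · exact isClosed_eq ((Complex.continuous_ofReal.comp (continuous_const.sub ha)).mul hb)
        continuous_const
    · exact isClosed_eq hb ((Complex.continuous_ofReal.comp hb.norm).mul
        (continuous_subtype_val.comp (AddCircle.continuous_toCircle.comp (ht 0))))
    · refine isClosed_iInter fun j => ?_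
      refine isClosed_eq (ht j) ((ht (j+1)).add ?_)
      refine (AddCircle.continuous_mk' (1:ℝ)).comp ?_
      refine ((continuous_sg j).comp ha).mul ?_
      exact (D j).continuous.comp (continuous_fst.prodMk (ht (j+1)))
  · rintro p ⟨h1, h2, -⟩
    exact ⟨mem_univ _, ⟨h1, h2⟩, mem_univ _⟩

/-- JOB part 2 -/
theorem exists_mem_Bl (b : B) : ∃ p ∈ Bl g D, p.1 = b := by
  obtain ⟨t, ht⟩ := exists_toCircle' (g b)
  refine ⟨(b, 1, fun _ => t), ⟨zero_le_one, le_refl _, by simp, ht, ?_⟩, rfl⟩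
  intro j
  simp [sg_one]

/-- JOB part 3: the fibres of the blow-down map are connected -/
theorem fiber_Bl (b : B) : IsPreconnected {p : Bl g D | p.1.1 = b} := by
  rw [← Topology.IsInducing.subtypeVal.isPreconnected_image]
  by_cases hb : g b = 0
  · have himg : (Subtype.val '' {p : Bl g D | p.1.1 = b}) =
        (fun q : ℝ × (ℕ → S1) => (b, q)) '' (⋂ j : ℕ,
          (fun q : ℝ × (ℕ → S1) => (q.1, GG D b q.1 j q.2)) '' (Icc (0:ℝ) 1 ×ˢ (univ : Set (ℕ → S1)))) := by
      ext p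
      constructor
      · rintro ⟨⟨p, hp⟩, hpb, rfl⟩
        obtain ⟨b', a, t⟩ := p
        have hbb : b' = b := hpb
        subst hbb
        refine ⟨(a, t), ?_, rfl⟩
        rw [mem_iInter]
        intro j
        refine ⟨(a, t), ⟨⟨hp.1, hp.2.1⟩, mem_univ _⟩, ?_⟩
        show (a, GG D b' a j t) = (a, t)
        rw [GG_fix D b' a j t (fun i _ => hp.2.2.2.2 i)]
      · rintro ⟨⟨a, t⟩, hq, rfl⟩
        rw [mem_iInter] at hq
        have h0 := hq 0
        obtain ⟨⟨a', t'⟩, ⟨hI, -⟩, heq⟩ := h0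
        have haa : a' = a := congrArg Prod.fst heq
        subst haa
        refine ⟨⟨(b, a', t), ⟨hI.1, hI.2, ?_, ?_, ?_⟩⟩, rfl, rfl⟩
        · show ((1 - a' : ℝ) : ℂ) * g b = 0
          rw [hb, mul_zero]
        · show g b = (‖g b‖ : ℂ) * _
          rw [hb]; simp
        · intro j
          obtain ⟨⟨a'', t''⟩, -, heq2⟩ := hq (j + 1)
          have h1 : a'' = a' := congrArg Prod.fst heq2
          subst h1
          have h2 : GG D b a'' (j + 1) t'' = t := congrArg Prod.snd heq2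
          have h3 := GG_constr D b a'' (j + 1) t'' j (by omega)
          rw [h2] at h3
          exact h3
    rw [himg]
    refine IsPreconnected.image ?_ _ (continuous_const.prodMk continuous_id).continuousOn
    have hcont : ∀ j, Continuous (fun q : ℝ × (ℕ → S1) => (q.1, GG D b q.1 j q.2)) := fun j =>
      continuous_fst.prodMk (GG_cont D b j)
    refine preconn_iInter _ (fun j => ?_) (fun j => ?_) (fun j => ?_)
    · exact (isCompact_Icc.prod isCompact_univ).image (hcont j)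
    · exact (isPreconnected_Icc.prod isPreconnected_univ).image _ (hcont j).continuousOn
    · rintro _ ⟨⟨a, t⟩, ⟨hI, -⟩, rfl⟩
      refine ⟨(a, GG D b a (j+1) t), ⟨hI, mem_univ _⟩, ?_⟩
      show (a, GG D b a j (GG D b a (j+1) t)) = (a, GG D b a (j+1) t)
      rw [GG_fix D b a j _ (fun i hi => GG_constr D b a (j+1) t i (by omega))]
  · apply Set.Subsingleton.isPreconnected
    rintro _ ⟨⟨p, hp⟩, hpb, rfl⟩ _ ⟨⟨q, hq⟩, hqb, rfl⟩
    have key : ∀ p ∈ Bl g D, p.1 = b → p.2.1 = 1 ∧ (∀ j, p.2.2 j = p.2.2 0) ∧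
        g b = (‖g b‖ : ℂ) * (AddCircle.toCircle (p.2.2 0) : ℂ) := by
      rintro p ⟨h1, h2, h3, h4, h5⟩ rfl
      have ha : p.2.1 = 1 := by
        rcases mul_eq_zero.mp h3 with h | h
        · have : 1 - p.2.1 = 0 := by exact_mod_cast h
          linarith
        · exact absurd h hb
      refine ⟨ha, ?_, h4⟩
      intro j
      induction j with
      | zero => rfl
      | succ j ih =>
        rw [← ih]
        have := h5 j
        rw [ha, sg_one] at this
        simp only [zero_mul, AddCircle.coe_zero, add_zero] at this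
        exact this.symm
    obtain ⟨k1, k2, k3⟩ := key p hp hpb
    obtain ⟨l1, l2, l3⟩ := key q hq hqb
    have hn : (‖g b‖ : ℂ) ≠ 0 := by exact_mod_cast (norm_ne_zero_iff.mpr hb)
    have h0 : p.2.2 0 = q.2.2 0 := by
      apply AddCircle.injective_toCircle (T := 1) one_ne_zero
      apply Subtype.ext
      exact mul_left_cancel₀ hn (k3.symm.trans l3)
    apply Prod.ext
    · show p.1 = q.1
      exact (show p.1 = b from hpb).trans (show q.1 = b from hqb).symm
    · apply Prod.ext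
      · exact k1.trans l1.symm
      · funext j
        rw [k2 j, l2 j, h0]

/-- JOB part 4: every finite stage `a = 2 ^ (-(j+1))` and every top coordinate occur -/
theorem exists_point_Bl (b : B) (hb : g b = 0) (j : ℕ) (t : S1) :
    ∃ p ∈ Bl g D, p.1 = b ∧ p.2.1 = (1 / 2 : ℝ) ^ (j + 1) ∧ p.2.2 (j + 1) = t := by
  refine ⟨(b, (1/2 : ℝ) ^ (j + 1), GG D b ((1/2 : ℝ) ^ (j + 1)) (j + 1) (fun _ => t)),
    ⟨by positivity, pow_le_one₀ (by norm_num) (by norm_num), ?_, ?_, ?_⟩, rfl, rfl,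
    GG_of_ge D b _ (j+1) _ (j+1) le_rfl⟩
  · show _ * g b = 0
    rw [hb, mul_zero]
  · show g b = (‖g b‖ : ℂ) * _
    rw [hb]; simp
  · intro i
    rcases lt_or_ge i (j + 1) with h | h
    · exact GG_constr D b _ (j+1) _ i h
    · show GG D b _ (j+1) _ i = GG D b _ (j+1) _ (i+1) + ((sg i ((1/2 : ℝ) ^ (j + 1)) * _ : ℝ) : S1)
      rw [GG_of_ge D b _ (j+1) _ i h, GG_of_ge D b _ (j+1) _ (i+1) (by omega), sg_zero_of_le h]
      simp

end

end Pool.Agent.B595.Cont.J11
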