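import Pool.Agent.B595.Cont.Defs

set_option autoImplicit false
open Set Topology

namespace Pool.Agent.B595.Cont.J12




section telaux

theorem tel_sg_cont (j : ℕ) : Continuous (sg j) := by unfold sg; fun_prop

theorem tel_sg_zero {j : ℕ} {a : ℝ} (h : (1/2:ℝ)^j ≤ a) : sg j a = 0 := by
  unfold sg
  have h1 : (2:ℝ) ^ (j+1) * (1/2:ℝ)^j = 2 := by
    rw [pow_succ, one_div, inv_pow]; field_simp
  have h2 : (2:ℝ) ^ (j+1) * (1/2:ℝ)^j ≤ 2 ^ (j+1) * a := by gcongr
  have h3 : (2 - 2 ^ (j + 1) * a : ℝ) ≤ 0 := by linarith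
  exact max_eq_left (le_trans (min_le_right _ _) h3)

theorem tel_sg_one {j : ℕ} {a : ℝ} (h : a ≤ (1/2:ℝ)^(j+1)) : sg j a = 1 := by
  unfold sg
  have h1 : (2:ℝ) ^ (j+1) * (1/2:ℝ)^(j+1) = 1 := by
    rw [← mul_pow]; norm_num
  have h2 : (2:ℝ) ^ (j+1) * a ≤ 2 ^ (j+1) * (1/2:ℝ)^(j+1) := by gcongr
  have h3 : (1:ℝ) ≤ (2 - 2 ^ (j + 1) * a : ℝ) := by linarith
  rw [min_eq_left h3]; norm_num

theorem tel_sg_max {i j : ℕ} (hij : i < j) (a : ℝ) : sg i (max a ((1/2:ℝ)^j)) = sg i a := by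
  rcases le_total ((1/2:ℝ)^j) a with h | h
  · rw [max_eq_left h]
  · rw [max_eq_right h]
    have h1 : (1/2:ℝ)^j ≤ (1/2:ℝ)^(i+1) :=
      pow_le_pow_of_le_one (by norm_num) (by norm_num) hij
    rw [tel_sg_one h1, tel_sg_one (h.trans h1)]

/-- the point over level `j` -/
noncomputable def tW {B : Type} [TopologicalSpace B] (D : ℕ → C(B × S1, ℝ)) (b : B) (a : ℝ) :
    ℕ → S1 → ℕ → S1
  | 0, y, _ => y
  | (j+1), y, i => if i ≤ j then tW D b a j (y + ((sg j a * D j (b, y) : ℝ) : S1)) i else y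

variable {B : Type} [TopologicalSpace B] (D : ℕ → C(B × S1, ℝ))

theorem tW_ge (b : B) (a : ℝ) (j : ℕ) (y : S1) (i : ℕ) (h : j ≤ i) : tW D b a j y i = y := by
  cases j with
  | zero => rfl
  | succ j => rw [tW, if_neg (by omega)]

theorem tW_rec (b : B) (a : ℝ) (j : ℕ) (y : S1) (i : ℕ) (h : i < j) :
    tW D b a j y i = tW D b a j y (i+1) +
      ((sg i a * D i (b, tW D b a j y (i+1)) : ℝ) : S1) := by
  induction j generalizing y with
  | zero => omega
  | succ j ih =>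
    rcases Nat.lt_or_ge i j with h1 | h1
    · rw [tW, if_pos (by omega), tW, if_pos (by omega)]
      exact ih _ h1
    · have : i = j := by omega
      subst this
      rw [tW, if_pos le_rfl, tW_ge D b a i _ i le_rfl, tW_ge D b a (i+1) _ (i+1) le_rfl]

theorem tW_cont {X : Type*} [TopologicalSpace X] (j i : ℕ) (b : X → B) (a : X → ℝ) (y : X → S1)
    (hb : Continuous b) (ha : Continuous a) (hy : Continuous y) :
    Continuous fun x => tW D (b x) (a x) j (y x) i := by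
  induction j generalizing y with
  | zero => exact hy
  | succ j ih =>
    by_cases h : i ≤ j
    · simp only [tW, if_pos h]
      refine ih (fun x => y x + ((sg j (a x) * D j (b x, y x) : ℝ) : S1)) ?_
      refine hy.add ?_
      refine (AddCircle.continuous_mk' (1:ℝ)).comp ?_
      refine ((tel_sg_cont j).comp ha).mul ((D j).continuous.comp (hb.prodMk hy))
    · simp only [tW, if_neg h]
      exact hy

theorem tW_uniq (b : B) (a : ℝ) (j : ℕ) (y : S1) (t : ℕ → S1) (hy : t j = y)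
    (ht : ∀ i < j, t i = t (i + 1) + ((sg i a * D i (b, t (i + 1)) : ℝ) : S1)) (i : ℕ)
    (hi : i ≤ j) : tW D b a j y i = t i := by
  induction j generalizing y with
  | zero =>
    have : i = 0 := by omega
    subst this; exact hy.symm
  | succ j ih =>
    rcases Nat.lt_or_ge j i with h1 | h1
    · have : i = j + 1 := by omega
      subst this
      rw [tW_ge D b a (j+1) _ (j+1) le_rfl]; exact hy.symm
    · rw [tW, if_pos h1]
      refine ih _ ?_ (fun k hk => ht k (by omega)) h1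
      rw [ht j (by omega), hy]

/-- the real jump -/
noncomputable def tX (b : B) (a : ℝ) (t : ℕ → S1) (j : ℕ) : ℝ :=
  ∑ i ∈ Finset.range j, sg i a * D i (b, t (i+1))

theorem tX_spec (b : B) (a : ℝ) (t : ℕ → S1) (j : ℕ)
    (ht : ∀ i < j, t i = t (i + 1) + ((sg i a * D i (b, t (i + 1)) : ℝ) : S1)) :
    t 0 = t j + ((tX D b a t j : ℝ) : S1) := by
  induction j with
  | zero => simp [tX]
  | succ j ih =>
    have h1 := ih (fun i hi => ht i (by omega))
    rw [h1, ht j (by omega)]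
    unfold tX
    rw [Finset.sum_range_succ, AddCircle.coe_add]
    abel

theorem tX_cont {X : Type*} [TopologicalSpace X] (j : ℕ) (b : X → B) (a : X → ℝ) (t : X → ℕ → S1)
    (hb : Continuous b) (ha : Continuous a) (ht : Continuous t) :
    Continuous fun x => tX D (b x) (a x) (t x) j := by
  unfold tX
  refine continuous_finsetSum _ fun i _ => ?_
  exact ((tel_sg_cont i).comp ha).mul ((D i).continuous.comp
    (hb.prodMk ((continuous_apply (i+1)).comp ht)))

/-- membership -/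
theorem tW_mem (g : C(B, ℂ)) (b : B) (hb : g b = 0) (a : ℝ) (h0 : 0 ≤ a) (h1 : a ≤ 1) (j : ℕ)
    (hj : (1/2:ℝ)^j ≤ a) (y : S1) : ((b, a, tW D b a j y) : B × ℝ × (ℕ → S1)) ∈ Bl g D := by
  refine ⟨h0, h1, ?_, ?_, ?_⟩
  · simp [hb]
  · simp [hb]
  · intro i
    rcases Nat.lt_or_ge i j with h | h
    · exact tW_rec D b a j y i h
    · have h2 : (1/2:ℝ)^i ≤ a :=
        (pow_le_pow_of_le_one (by norm_num) (by norm_num) h).trans hj
      simp only
      rw [tW_ge D b a j y i h, tW_ge D b a j y (i+1) (by omega), tel_sg_zero h2]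
      simp

end telaux

section
variable {B : Type} [TopologicalSpace B] [CompactSpace B] [T2Space B]
  [SecondCountableTopology B] (g : C(B, ℂ)) (D : ℕ → C(B × S1, ℝ))

theorem tel_compact : IsCompact {p : B × ℝ × (ℕ → S1) | p ∈ Bl g D ∧ g p.1 = 0} := by
  have hc : IsCompact ((Set.univ : Set B) ×ˢ (Set.Icc (0:ℝ) 1 ×ˢ (Set.univ : Set (ℕ → S1)))) :=
    isCompact_univ.prod (isCompact_Icc.prod isCompact_univ)
  refine hc.of_isClosed_subset ?_ ?_
  · have h1 : Continuous fun p : B × ℝ × (ℕ → S1) => g p.1 := by fun_prop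
    have h2 : ∀ j, Continuous fun p : B × ℝ × (ℕ → S1) => p.2.2 j := fun j => by fun_prop
    have h3 : Continuous fun p : B × ℝ × (ℕ → S1) => p.2.1 := by fun_prop
    have c1 : IsClosed {p : B × ℝ × (ℕ → S1) | 0 ≤ p.2.1} := isClosed_le continuous_const h3
    have c2 : IsClosed {p : B × ℝ × (ℕ → S1) | p.2.1 ≤ 1} := isClosed_le h3 continuous_const
    have c3 : IsClosed {p : B × ℝ × (ℕ → S1) | g p.1 = 0} := isClosed_eq h1 continuous_const
    have c4 : ∀ j, IsClosed {p : B × ℝ × (ℕ → S1) | p.2.2 j = p.2.2 (j + 1) +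
          ((sg j p.2.1 * D j (p.1, p.2.2 (j + 1)) : ℝ) : S1)} := by
      intro j
      refine isClosed_eq (h2 j) ?_
      refine (h2 (j+1)).add ((AddCircle.continuous_mk' (1:ℝ)).comp ?_)
      exact Continuous.mul ((tel_sg_cont j).comp h3) ((D j).continuous.comp
        (continuous_fst.prodMk (h2 (j+1))))
    have : {p : B × ℝ × (ℕ → S1) | p ∈ Bl g D ∧ g p.1 = 0} =
        ({p : B × ℝ × (ℕ → S1) | 0 ≤ p.2.1} ∩ {p : B × ℝ × (ℕ → S1) | p.2.1 ≤ 1} ∩
          {p : B × ℝ × (ℕ → S1) | g p.1 = 0}) ∩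
          ⋂ j, {p : B × ℝ × (ℕ → S1) | p.2.2 j = p.2.2 (j + 1) +
          ((sg j p.2.1 * D j (p.1, p.2.2 (j + 1)) : ℝ) : S1)} := by
      ext p
      simp only [Set.mem_inter_iff, Set.mem_iInter, Set.mem_ofPred_eq]
      constructor
      · rintro ⟨⟨q1, q2, q3, q4, q5⟩, q6⟩
        exact ⟨⟨⟨q1, q2⟩, q6⟩, q5⟩
      · rintro ⟨⟨⟨q1, q2⟩, q6⟩, q5⟩
        refine ⟨⟨q1, q2, ?_, ?_, q5⟩, q6⟩
        · simp [q6]
        · simp [q6]
    rw [this]
    exact ((c1.inter c2).inter c3).inter (isClosed_iInter c4)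
  · rintro p ⟨hp, -⟩
    exact ⟨trivial, ⟨hp.1, hp.2.1⟩, trivial⟩

/-- a circle valued map of norm below one quarter lifts -/
theorem tel_small {X : Type*} [TopologicalSpace X] (f : C(X, S1)) (h : ∀ x, ‖f x‖ < 1/4) :
    ∃ θ : C(X, ℝ), ∀ x, f x = ((θ x : ℝ) : S1) := by
  have : Fact ((0:ℝ) < 1) := ⟨one_pos⟩
  have hne : ∀ x, f x ∈ (AddCircle.openPartialHomeomorphCoe (1:ℝ) (-(1/2):ℝ)).target := by
    intro x hx
    have h1 : f x = (((-(1/2)) : ℝ) : S1) := hx
    have h2 : ‖(((-(1/2)) : ℝ) : S1)‖ = 1/2 := by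
      rw [AddCircle.coe_neg, norm_neg]
      rw [AddCircle.norm_coe_eq_abs_iff (1:ℝ) one_ne_zero |>.2]
      · rw [abs_of_pos] <;> norm_num
      · rw [abs_of_pos] <;> norm_num
    have h3 := h x
    rw [h1, h2] at h3
    norm_num at h3
  refine ⟨⟨fun x => (AddCircle.openPartialHomeomorphCoe (1:ℝ) (-(1/2):ℝ)).symm (f x), ?_⟩, ?_⟩
  · exact (AddCircle.openPartialHomeomorphCoe (1:ℝ) (-(1/2):ℝ)).continuousOn_symm.comp_continuous
      f.continuous hne
  · intro x
    exact ((AddCircle.openPartialHomeomorphCoe (1:ℝ) (-(1/2):ℝ)).right_inv (hne x)).symm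

/-- JOB: on the part over the zeros of `g` every circle valued map is, up to a real function,
pulled back by `(b, a, t) ↦ (b, 1, (t 0, t 0, ...))`. -/
theorem tel (ψ : C(Bl g D, S1)) :
    ∃ (v : C({b : B // g b = 0} × S1, S1)) (θ : C({e : Bl g D // g e.1.1 = 0}, ℝ)),
      ∀ e : {e : Bl g D // g e.1.1 = 0},
        ψ e.1 = v (⟨e.1.1.1, e.2⟩, e.1.1.2.2 0) + ((θ e : ℝ) : S1) := by
  have hE : CompactSpace {e : Bl g D // g e.1.1 = 0} := by
    have := isCompact_iff_compactSpace.1 (tel_compact g D)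
    let F : {p : B × ℝ × (ℕ → S1) | p ∈ Bl g D ∧ g p.1 = 0} → {e : Bl g D // g e.1.1 = 0} :=
      fun p => ⟨⟨p.1, p.2.1⟩, p.2.2⟩
    have hF : Continuous F := by
      refine Continuous.subtype_mk (Continuous.subtype_mk continuous_subtype_val _) _
    have hFs : Function.Surjective F := fun e => ⟨⟨e.1.1, e.1.2, e.2⟩, rfl⟩
    exact hFs.compactSpace hF
  -- coordinates
  have cb : Continuous fun e : {e : Bl g D // g e.1.1 = 0} => e.1.1.1 := by fun_prop
  have ca : Continuous fun e : {e : Bl g D // g e.1.1 = 0} => e.1.1.2.1 := by fun_prop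
  have ct : Continuous fun e : {e : Bl g D // g e.1.1 = 0} => e.1.1.2.2 := by fun_prop
  have cti : ∀ i, Continuous fun e : {e : Bl g D // g e.1.1 = 0} => e.1.1.2.2 i := by
    intro i; fun_prop
  have hp0 : ∀ j : ℕ, (0:ℝ) < (1/2:ℝ)^j := fun j => by positivity
  have hp1 : ∀ j : ℕ, (1/2:ℝ)^j ≤ 1 := fun j => pow_le_one₀ (by norm_num) (by norm_num)
  -- the projections rho
  let rho : ℕ → {e : Bl g D // g e.1.1 = 0} → Bl g D := fun j e =>
    ⟨(e.1.1.1, max e.1.1.2.1 ((1/2:ℝ)^j),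
      tW D e.1.1.1 (max e.1.1.2.1 ((1/2:ℝ)^j)) j (e.1.1.2.2 j)),
      tW_mem D g e.1.1.1 e.2 _ (le_max_of_le_left e.1.2.1) (max_le e.1.2.2.1 (hp1 j)) j
        (le_max_right _ _) _⟩
  have rhoc : ∀ j, Continuous (rho j) := by
    intro j
    refine Continuous.subtype_mk ?_ _
    refine cb.prodMk ((ca.max continuous_const).prodMk ?_)
    exact continuous_pi fun i => tW_cont D j i _ _ _ cb (ca.max continuous_const) (cti j)
  have rhot : ∀ j e i, i ≤ j → (rho j e).1.2.2 i = e.1.1.2.2 i := by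
    intro j e i hi
    refine tW_uniq D _ _ j _ _ rfl (fun k hk => ?_) i hi
    rw [tel_sg_max hk]
    exact e.1.2.2.2.2.2 k
  -- uniform closeness
  have hj : ∃ j, ∀ e, ‖ψ e.1 - ψ (rho j e)‖ < 1/4 := by
    have key : ∀ e0 : {e : Bl g D // g e.1.1 = 0},
        Filter.Tendsto (fun p : {e : Bl g D // g e.1.1 = 0} × ℕ => rho p.2 p.1)
          (𝓝 e0 ×ˢ Filter.atTop) (𝓝 e0.1) := by
      intro e0
      rw [tendsto_subtype_rng]
      refine Filter.Tendsto.prodMk_nhds ?_ (Filter.Tendsto.prodMk_nhds ?_ ?_)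
      · exact (cb.tendsto e0).comp Filter.tendsto_fst
      · have h1 : Filter.Tendsto (fun p : {e : Bl g D // g e.1.1 = 0} × ℕ => (1/2:ℝ)^p.2)
            (𝓝 e0 ×ˢ Filter.atTop) (𝓝 0) :=
          (tendsto_pow_atTop_nhds_zero_of_lt_one (by norm_num) (by norm_num)).comp
            Filter.tendsto_snd
        have h2 := ((ca.tendsto e0).comp
          (Filter.tendsto_fst (g := (Filter.atTop : Filter ℕ)))).max h1
        rw [max_eq_left e0.1.2.1] at h2
        exact h2
      · rw [tendsto_pi_nhds]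
        intro i
        have h1 := ((cti i).tendsto e0).comp
          (Filter.tendsto_fst (g := (Filter.atTop : Filter ℕ)))
        refine h1.congr' ?_
        have h2 : ∀ᶠ p : {e : Bl g D // g e.1.1 = 0} × ℕ in 𝓝 e0 ×ˢ Filter.atTop, i ≤ p.2 :=
          Filter.tendsto_snd.eventually (Filter.eventually_ge_atTop i)
        filter_upwards [h2] with p hp
        exact (rhot p.2 p.1 i hp).symm
    have loc : ∀ e0 : {e : Bl g D // g e.1.1 = 0},
        ∀ᶠ p : {e : Bl g D // g e.1.1 = 0} × ℕ in 𝓝 e0 ×ˢ Filter.atTop,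
          ‖ψ p.1.1 - ψ (rho p.2 p.1)‖ < 1/4 := by
      intro e0
      have h1 : Filter.Tendsto (fun p : {e : Bl g D // g e.1.1 = 0} × ℕ => ψ p.1.1)
          (𝓝 e0 ×ˢ Filter.atTop) (𝓝 (ψ e0.1)) :=
        ((ψ.continuous.comp continuous_subtype_val).tendsto e0).comp Filter.tendsto_fst
      have h2 : Filter.Tendsto (fun p : {e : Bl g D // g e.1.1 = 0} × ℕ => ψ (rho p.2 p.1))
          (𝓝 e0 ×ˢ Filter.atTop) (𝓝 (ψ e0.1)) :=
        (ψ.continuous.tendsto e0.1).comp (key e0)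
      have h3 := (h1.sub h2).norm
      rw [sub_self, norm_zero] at h3
      exact h3.eventually (gt_mem_nhds (by norm_num))
    have glob : ∀ᶠ j : ℕ in Filter.atTop, ∀ e ∈ (Set.univ : Set {e : Bl g D // g e.1.1 = 0}),
        ‖ψ e.1 - ψ (rho j e)‖ < 1/4 := by
      refine isCompact_univ.induction_on (p := fun s => ∀ᶠ j : ℕ in Filter.atTop, ∀ e ∈ s,
        ‖ψ e.1 - ψ (rho j e)‖ < 1/4) ?_ ?_ ?_ ?_
      · simp
      · intro s t hst ht
        filter_upwards [ht] with j hj e he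
        exact hj e (hst he)
      · intro s t hs ht
        filter_upwards [hs, ht] with j h1 h2 e he
        rcases he with he | he
        · exact h1 e he
        · exact h2 e he
      · intro e0 _
        obtain ⟨pa, hpa, pb, hpb, hab⟩ := Filter.eventually_prod_iff.1 (loc e0)
        refine ⟨{e | pa e}, mem_nhdsWithin_of_mem_nhds hpa, ?_⟩
        filter_upwards [hpb] with j hj e he
        exact hab he hj
    obtain ⟨j, hj⟩ := glob.exists
    exact ⟨j, fun e => hj e trivial⟩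
  obtain ⟨j, hj⟩ := hj
  -- small difference lifts
  obtain ⟨θ1, hθ1⟩ := tel_small
    (⟨fun e => ψ e.1 - ψ (rho j e), (ψ.continuous.comp continuous_subtype_val).sub
      (ψ.continuous.comp (rhoc j))⟩ : C({e : Bl g D // g e.1.1 = 0}, S1)) hj
  -- the homotopy
  let A : unitInterval × {e : Bl g D // g e.1.1 = 0} → ℝ := fun q =>
    max q.2.1.1.2.1 ((1 - (q.1:ℝ)) * (1/2:ℝ)^j + q.1)
  have cA : Continuous A := by
    refine (ca.comp continuous_snd).max ?_
    fun_prop
  have hA0 : ∀ q, 0 ≤ A q := fun q => le_max_of_le_left q.2.1.2.1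
  have hA1 : ∀ q, A q ≤ 1 := fun q => by
    refine max_le q.2.1.2.2.1 ?_
    have h1 : (1 - (q.1:ℝ)) * (1/2:ℝ)^j ≤ (1 - (q.1:ℝ)) * 1 :=
      mul_le_mul_of_nonneg_left (hp1 j) (by linarith [q.1.2.2])
    linarith
  have hAj : ∀ q, (1/2:ℝ)^j ≤ A q := fun q => by
    refine le_trans ?_ (le_max_right _ _)
    have h1 : (q.1:ℝ) * (1/2:ℝ)^j ≤ (q.1:ℝ) * 1 :=
      mul_le_mul_of_nonneg_left (hp1 j) q.1.2.1
    linarith
  let Y : unitInterval × {e : Bl g D // g e.1.1 = 0} → S1 := fun q =>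
    q.2.1.1.2.2 j + (((q.1:ℝ) * tX D q.2.1.1.1 q.2.1.1.2.1 q.2.1.1.2.2 j : ℝ) : S1)
  have cY : Continuous Y := by
    refine ((cti j).comp continuous_snd).add ((AddCircle.continuous_mk' (1:ℝ)).comp ?_)
    refine (continuous_subtype_val.comp continuous_fst).mul ?_
    exact tX_cont D j _ _ _ (cb.comp continuous_snd) (ca.comp continuous_snd)
      (ct.comp continuous_snd)
  let H : unitInterval × {e : Bl g D // g e.1.1 = 0} → Bl g D := fun q =>
    ⟨(q.2.1.1.1, A q, tW D q.2.1.1.1 (A q) j (Y q)),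
      tW_mem D g q.2.1.1.1 q.2.2 _ (hA0 q) (hA1 q) j (hAj q) _⟩
  have cH : Continuous H := by
    refine Continuous.subtype_mk ?_ _
    refine (cb.comp continuous_snd).prodMk (cA.prodMk ?_)
    exact continuous_pi fun i => tW_cont D j i _ _ _ (cb.comp continuous_snd) cA cY
  have hH0 : ∀ e, H (0, e) = rho j e := by
    intro e
    have e1 : A (0, e) = max e.1.1.2.1 ((1/2:ℝ)^j) := by simp [A]
    have e2 : Y (0, e) = e.1.1.2.2 j := by simp [Y]
    apply Subtype.ext
    simp only [H, rho, e1, e2]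
  let HH : C(unitInterval × {e : Bl g D // g e.1.1 = 0}, S1) :=
    ⟨fun q => ψ (H q) - ψ (rho j q.2), (ψ.continuous.comp cH).sub
      (ψ.continuous.comp ((rhoc j).comp continuous_snd))⟩
  have cov := AddCircle.isCoveringMap_coe (1:ℝ)
  have h0 : ∀ a, HH (0, a) = (((0 : C({e : Bl g D // g e.1.1 = 0}, ℝ)) a : ℝ) : S1) := by
    intro a
    change ψ (H (0, a)) - ψ (rho j a) = _
    rw [hH0]; simp
  let L := cov.liftHomotopy HH (0 : C({e : Bl g D // g e.1.1 = 0}, ℝ)) h0
  have hL : ∀ e, ((L (1, e) : ℝ) : S1) = ψ (H (1, e)) - ψ (rho j e) := by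
    intro e
    exact congrFun (cov.liftHomotopy_lifts HH (0 : C({e : Bl g D // g e.1.1 = 0}, ℝ)) h0) (1, e)
  -- the map v
  let K : {b : B // g b = 0} × S1 → Bl g D := fun q =>
    ⟨(q.1.1, 1, tW D q.1.1 1 0 q.2), tW_mem D g q.1.1 q.1.2 1 zero_le_one le_rfl 0 (by simp) _⟩
  have cK : Continuous K := by
    refine Continuous.subtype_mk ?_ _
    refine (continuous_subtype_val.comp continuous_fst).prodMk (continuous_const.prodMk ?_)
    exact continuous_pi fun i => tW_cont D 0 i _ _ _ (continuous_subtype_val.comp continuous_fst)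
      continuous_const continuous_snd
  have hH1 : ∀ e : {e : Bl g D // g e.1.1 = 0}, H (1, e) = K (⟨e.1.1.1, e.2⟩, e.1.1.2.2 0) := by
    intro e
    have e1 : A (1, e) = 1 := by
      simp only [A, Set.Icc.coe_one]
      rw [sub_self, zero_mul, zero_add]
      exact max_eq_right e.1.2.2.1
    have e2 : Y (1, e) = e.1.1.2.2 0 := by
      simp only [Y, Set.Icc.coe_one, one_mul]
      exact (tX_spec D _ _ _ j (fun i _ => e.1.2.2.2.2.2 i)).symm
    apply Subtype.ext
    simp only [H, K, e1, e2]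
    congr 2
    funext i
    -- all cut-offs vanish at 1
    rw [tW_ge D _ _ 0 _ i (Nat.zero_le _)]
    rcases Nat.lt_or_ge j i with h | h
    · exact tW_ge D _ _ j _ i h.le
    · refine tW_uniq D _ _ j _ (fun _ => e.1.1.2.2 0) rfl (fun k _ => ?_) i h
      rw [tel_sg_zero (hp1 k)]; simp
  refine ⟨⟨fun q => ψ (K q), ψ.continuous.comp cK⟩,
    ⟨fun e => θ1 e - L (1, e), θ1.continuous.sub
      (L.continuous.comp (continuous_const.prodMk continuous_id))⟩, ?_⟩
  intro e
  have h1 := hθ1 e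
  have h2 := hL e
  rw [hH1] at h2
  change ψ e.1 - ψ (rho j e) = _ at h1
  change ψ e.1 = ψ (K (⟨e.1.1.1, e.2⟩, e.1.1.2.2 0)) + ((θ1 e - L (1, e) : ℝ) : S1)
  rw [AddCircle.coe_sub, ← h1, h2]
  abel

end

end Pool.Agent.B595.Cont.J12
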