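import Pool.Agent.B595.Cont.Defs

set_option autoImplicit false
open Set Topology

namespace Pool.Agent.B595.Cont.J2





/-- closed interval in the unit interval -/
def Nb (a : unitInterval) (d : ℝ) : Set unitInterval := {u | |(u : ℝ) - a| ≤ d}

theorem Nb_closed (a : unitInterval) (d : ℝ) : IsClosed (Nb a d) := by
  unfold Nb
  exact isClosed_le (by fun_prop) continuous_const

theorem Nb_nhds (a : unitInterval) (d : ℝ) (hd : 0 < d) : Nb a d ∈ nhds a := by
  have hop : IsOpen {u : unitInterval | |(u : ℝ) - a| < d} :=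
    isOpen_lt (by fun_prop) continuous_const
  have ha : a ∈ {u : unitInterval | |(u : ℝ) - a| < d} := by simpa using hd
  exact Filter.mem_of_superset (hop.mem_nhds ha) (fun u (hu : |(u:ℝ) - a| < d) => show |(u:ℝ) - a| ≤ d from le_of_lt hu)

theorem Nb_self (a : unitInterval) (d : ℝ) (hd : 0 < d) : a ∈ Nb a d := by
  simp [Nb, hd.le]

theorem Nb_conn (a : unitInterval) (d : ℝ) : IsPreconnected (Nb a d) := by
  rw [← Topology.IsInducing.subtypeVal.isPreconnected_image]
  have : (Subtype.val '' (Nb a d) : Set ℝ) = Icc (max 0 ((a:ℝ) - d)) (min 1 ((a:ℝ) + d)) := by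
    ext t
    simp only [mem_image, Nb, Set.mem_ofPred_eq, Subtype.exists, mem_Icc, max_le_iff, le_min_iff]
    constructor
    · rintro ⟨u, hu, h1, rfl⟩
      rw [abs_le] at h1
      exact ⟨⟨hu.1, by linarith⟩, hu.2, by linarith⟩
    · rintro ⟨⟨h1, h2⟩, h3, h4⟩
      refine ⟨t, ⟨h1, h3⟩, ?_, rfl⟩
      rw [abs_le]
      constructor <;> linarith
  rw [this]
  exact isPreconnected_Icc

theorem Nb_disj (a a2 : unitInterval) (d : ℝ) (hd : 2 * d < |(a:ℝ) - a2|) : Disjoint (Nb a d) (Nb a2 d) := by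
  rw [Set.disjoint_left]
  intro u hu hu2
  have h1 : |(u:ℝ) - a| ≤ d := hu
  have h2 : |(u:ℝ) - a2| ≤ d := hu2
  have : |(a:ℝ) - a2| ≤ |(u:ℝ) - a2| + |(u:ℝ) - a| := by
    have e : (a:ℝ) - a2 = ((u:ℝ) - a2) - ((u:ℝ) - a) := by ring
    rw [e]
    exact abs_sub _ _
  linarith

theorem exists_far (a : unitInterval) : ∃ b : unitInterval, (1/10 : ℝ) < |(b:ℝ) - a| := by
  have h0 := a.2.1
  have h1 := a.2.2
  by_cases h : (a:ℝ) ≤ 1/2
  · refine ⟨1, ?_⟩
    have e : ((1 : unitInterval) : ℝ) = 1 := rfl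
    rw [e, abs_of_nonneg] <;> linarith
  · refine ⟨0, ?_⟩
    push Not at h
    have e : ((0 : unitInterval) : ℝ) = 0 := rfl
    rw [e, abs_of_nonpos] <;> linarith

/-- JOB: a product of a continuum with a square is mutually aposyndetic. -/
theorem mapo_prod {Y : Type} [TopologicalSpace Y] [CompactSpace Y] [T2Space Y]
    [ConnectedSpace Y] : MApo (Y × unitInterval × unitInterval) := by
  rintro ⟨y, a, b⟩ ⟨y2, a2, b2⟩ hne
  by_cases ha : a = a2
  · by_cases hb : b = b2
    · subst ha
      subst hb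
      have hy : y ≠ y2 := by
        rintro rfl
        exact hne rfl
      obtain ⟨u, hyu, hu, v, hyv, hv, hdisj⟩ := exists_open_nhds_disjoint_closure hy
      obtain ⟨as, has⟩ := exists_far a
      obtain ⟨bs, hbs⟩ := exists_far b
      have hd : (0:ℝ) < 1/10 := by norm_num
      refine ⟨(closure u ×ˢ (Nb a (1/10) ×ˢ univ)) ∪ (univ ×ˢ {(a, bs)}),
        (closure v ×ˢ (univ ×ˢ Nb b (1/10))) ∪ (univ ×ˢ {(as, b)}), ?_, ?_, ?_, ?_, ?_, ?_, ?_⟩
      · exact (isClosed_closure.prod ((Nb_closed a _).prod isClosed_univ)).union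
          (isClosed_univ.prod isClosed_singleton)
      · refine ⟨⟨(y, a, bs), Or.inr ⟨trivial, rfl⟩⟩, ?_⟩
        have hbase : IsPreconnected ((univ : Set Y) ×ˢ ({(a, bs)} : Set (unitInterval × unitInterval))) :=
          isPreconnected_univ.prod isPreconnected_singleton
        apply isPreconnected_of_forall (y, a, bs)
        rintro ⟨q, s, t⟩ hp
        rcases hp with hp | hp
        · obtain ⟨h1, h2, h3⟩ := hp
          refine ⟨(univ ×ˢ {(a, bs)}) ∪ ({q} ×ˢ (Nb a (1/10) ×ˢ univ)), ?_, Or.inl ⟨trivial, rfl⟩,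
            Or.inr ⟨rfl, h2, trivial⟩, ?_⟩
          · rintro z (hz | hz)
            · exact Or.inr hz
            · left
              exact ⟨by rw [show z.1 = q from hz.1]; exact h1, hz.2⟩
          · refine IsPreconnected.union (q, a, bs) ⟨trivial, rfl⟩ ⟨rfl, Nb_self a _ hd, trivial⟩ hbase ?_
            exact isPreconnected_singleton.prod ((Nb_conn a _).prod isPreconnected_univ)
        · exact ⟨univ ×ˢ {(a, bs)}, subset_union_right, ⟨trivial, rfl⟩, hp, hbase⟩
      · exact (isClosed_closure.prod (isClosed_univ.prod (Nb_closed b _))).union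
          (isClosed_univ.prod isClosed_singleton)
      · refine ⟨⟨(y, as, b), Or.inr ⟨trivial, rfl⟩⟩, ?_⟩
        have hbase : IsPreconnected ((univ : Set Y) ×ˢ ({(as, b)} : Set (unitInterval × unitInterval))) :=
          isPreconnected_univ.prod isPreconnected_singleton
        apply isPreconnected_of_forall (y, as, b)
        rintro ⟨q, s, t⟩ hp
        rcases hp with hp | hp
        · obtain ⟨h1, h2, h3⟩ := hp
          refine ⟨(univ ×ˢ {(as, b)}) ∪ ({q} ×ˢ (univ ×ˢ Nb b (1/10))), ?_, Or.inl ⟨trivial, rfl⟩,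
            Or.inr ⟨rfl, trivial, h3⟩, ?_⟩
          · rintro z (hz | hz)
            · exact Or.inr hz
            · left
              exact ⟨by rw [show z.1 = q from hz.1]; exact h1, hz.2⟩
          · refine IsPreconnected.union (q, as, b) ⟨trivial, rfl⟩ ⟨rfl, trivial, Nb_self b _ hd⟩ hbase ?_
            exact isPreconnected_singleton.prod (isPreconnected_univ.prod (Nb_conn b _))
        · exact ⟨univ ×ˢ {(as, b)}, subset_union_right, ⟨trivial, rfl⟩, hp, hbase⟩
      · rw [Set.disjoint_left]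
        rintro ⟨q, s, t⟩ h1 h2
        rcases h1 with ⟨h1a, h1b, -⟩ | ⟨-, h1⟩ <;> rcases h2 with ⟨h2a, -, h2b⟩ | ⟨-, h2⟩
        · exact Set.disjoint_left.mp hdisj h1a h2a
        · have e : s = as := congrArg Prod.fst h2
          have h3 : |(s:ℝ) - a| ≤ 1/10 := h1b
          rw [e] at h3
          linarith
        · have e : t = bs := congrArg Prod.snd h1
          have h3 : |(t:ℝ) - b| ≤ 1/10 := h2b
          rw [e] at h3
          linarith
        · have e : s = a := congrArg Prod.fst h1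
          have e2 : s = as := congrArg Prod.fst h2
          rw [← e2, e] at has
          simp at has
          linarith
      · rw [mem_interior_iff_mem_nhds]
        refine Filter.mem_of_superset ?_ subset_union_left
        exact prod_mem_nhds (Filter.mem_of_superset (hu.mem_nhds hyu) subset_closure)
          (prod_mem_nhds (Nb_nhds a _ hd) Filter.univ_mem)
      · rw [mem_interior_iff_mem_nhds]
        refine Filter.mem_of_superset ?_ subset_union_left
        exact prod_mem_nhds (Filter.mem_of_superset (hv.mem_nhds hyv) subset_closure)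
          (prod_mem_nhds Filter.univ_mem (Nb_nhds b _ hd))
    · have hpos : 0 < |(b:ℝ) - b2| := by
        rw [abs_pos]
        intro h
        exact hb (Subtype.ext (by linarith))
      have hd : 0 < |(b:ℝ) - b2| / 3 := by positivity
      refine ⟨univ ×ˢ (univ ×ˢ Nb b (|(b:ℝ) - b2| / 3)), univ ×ˢ (univ ×ˢ Nb b2 (|(b:ℝ) - b2| / 3)),
        ?_, ?_, ?_, ?_, ?_, ?_, ?_⟩
      · exact isClosed_univ.prod (isClosed_univ.prod (Nb_closed _ _))
      · exact ⟨⟨(y, a, b), trivial, trivial, Nb_self b _ hd⟩,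
          isPreconnected_univ.prod (isPreconnected_univ.prod (Nb_conn _ _))⟩
      · exact isClosed_univ.prod (isClosed_univ.prod (Nb_closed _ _))
      · exact ⟨⟨(y, a, b2), trivial, trivial, Nb_self b2 _ hd⟩,
          isPreconnected_univ.prod (isPreconnected_univ.prod (Nb_conn _ _))⟩
      · rw [Set.disjoint_left]
        rintro ⟨q, s, t⟩ ⟨-, -, h1⟩ ⟨-, -, h2⟩
        exact Set.disjoint_left.mp (Nb_disj b b2 _ (by linarith)) h1 h2
      · rw [mem_interior_iff_mem_nhds]
        exact prod_mem_nhds Filter.univ_mem (prod_mem_nhds Filter.univ_mem (Nb_nhds b _ hd))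
      · rw [mem_interior_iff_mem_nhds]
        exact prod_mem_nhds Filter.univ_mem (prod_mem_nhds Filter.univ_mem (Nb_nhds b2 _ hd))
  · have hpos : 0 < |(a:ℝ) - a2| := by
      rw [abs_pos]
      intro h
      exact ha (Subtype.ext (by linarith))
    have hd : 0 < |(a:ℝ) - a2| / 3 := by positivity
    refine ⟨univ ×ˢ (Nb a (|(a:ℝ) - a2| / 3) ×ˢ univ), univ ×ˢ (Nb a2 (|(a:ℝ) - a2| / 3) ×ˢ univ),
      ?_, ?_, ?_, ?_, ?_, ?_, ?_⟩
    · exact isClosed_univ.prod ((Nb_closed _ _).prod isClosed_univ)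
    · exact ⟨⟨(y, a, b), trivial, Nb_self a _ hd, trivial⟩,
        isPreconnected_univ.prod ((Nb_conn _ _).prod isPreconnected_univ)⟩
    · exact isClosed_univ.prod ((Nb_closed _ _).prod isClosed_univ)
    · exact ⟨⟨(y, a2, b), trivial, Nb_self a2 _ hd, trivial⟩,
        isPreconnected_univ.prod ((Nb_conn _ _).prod isPreconnected_univ)⟩
    · rw [Set.disjoint_left]
      rintro ⟨q, s, t⟩ ⟨-, h1, -⟩ ⟨-, h2, -⟩
      exact Set.disjoint_left.mp (Nb_disj a a2 _ (by linarith)) h1 h2
    · rw [mem_interior_iff_mem_nhds]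
      exact prod_mem_nhds Filter.univ_mem (prod_mem_nhds (Nb_nhds a _ hd) Filter.univ_mem)
    · rw [mem_interior_iff_mem_nhds]
      exact prod_mem_nhds Filter.univ_mem (prod_mem_nhds (Nb_nhds a2 _ hd) Filter.univ_mem)

end Pool.Agent.B595.Cont.J2
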