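import Pool.Agent.B595.Cont.Defs

set_option autoImplicit false
open Set Topology

namespace Pool.Agent.B595.Cont.J3




theorem three_sets {X : Type} [TopologicalSpace X] [CompactSpace X] [T2Space X]
    (h : AP X) (U : Fin 3 → Set X) (hU : ∀ i, IsOpen (U i)) (hc : (⋃ i, U i) = Set.univ) :
    ∃ W : Fin 3 → Set X, (∀ i, IsOpen (W i)) ∧ (⋃ i, W i) = Set.univ ∧ (∀ i, W i ⊆ U i) ∧
      W 0 ∩ W 1 ∩ W 2 = ∅ := by
  obtain ⟨f, hf⟩ := PartitionOfUnity.exists_isSubordinate (X := X) (s := Set.univ) isClosed_univ U hU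
    (by rw [hc])
  have hsum : ∀ x, f 0 x + f 1 x + f 2 x = 1 := by
    intro x
    have h1 := f.sum_eq_one (Set.mem_univ x)
    rw [finsum_eq_sum_of_fintype, Fin.sum_univ_three] at h1
    exact h1
  have hpos : ∀ i x, f i x ≠ 0 → x ∈ U i := by
    intro i x hx
    exact hf i (subset_tsupport _ hx)
  have hnn : ∀ i x, 0 ≤ f i x := fun i x => f.nonneg i x
  let H : C(X, ℂ) := ⟨fun x => ((f 0 x - f 1 x : ℝ) : ℂ) + ((f 0 x + f 1 x - 2 * f 2 x : ℝ) : ℂ) * Complex.I,
    by fun_prop⟩
  have hHre : ∀ x, (H x).re = f 0 x - f 1 x := by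
    intro x
    show (((f 0 x - f 1 x : ℝ) : ℂ) + ((f 0 x + f 1 x - 2 * f 2 x : ℝ) : ℂ) * Complex.I).re = _
    rw [Complex.add_re, Complex.ofReal_re, Complex.re_ofReal_mul, Complex.I_re, mul_zero, add_zero]
  have hHim : ∀ x, (H x).im = f 0 x + f 1 x - 2 * f 2 x := by
    intro x
    show (((f 0 x - f 1 x : ℝ) : ℂ) + ((f 0 x + f 1 x - 2 * f 2 x : ℝ) : ℂ) * Complex.I).im = _
    rw [Complex.add_im, Complex.ofReal_im, Complex.im_ofReal_mul, Complex.I_im, mul_one, zero_add]
  obtain ⟨G, hG0, hG⟩ := h H (1/100) (by norm_num)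
  have hre : ∀ x, |(H x).re - (G x).re| ≤ 1/100 := by
    intro x
    rw [← Complex.sub_re]
    exact (Complex.abs_re_le_norm _).trans (hG x).le
  have him : ∀ x, |(H x).im - (G x).im| ≤ 1/100 := by
    intro x
    rw [← Complex.sub_im]
    exact (Complex.abs_im_le_norm _).trans (hG x).le
  let q2 : X → ℝ := fun x => (1 - (G x).im) / 3
  let q0 : X → ℝ := fun x => (1 - q2 x + (G x).re) / 2
  let q1 : X → ℝ := fun x => (1 - q2 x - (G x).re) / 2
  have cre : Continuous fun x => (G x).re := Complex.continuous_re.comp G.continuous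
  have cim : Continuous fun x => (G x).im := Complex.continuous_im.comp G.continuous
  have c2 : Continuous q2 := (continuous_const.sub cim).div_const 3
  have c0 : Continuous q0 := ((continuous_const.sub c2).add cre).div_const 2
  have c1 : Continuous q1 := ((continuous_const.sub c2).sub cre).div_const 2
  have hq2 : ∀ x, q2 x = (1 - (G x).im) / 3 := fun x => rfl
  have hq0 : ∀ x, q0 x = (1 - q2 x + (G x).re) / 2 := fun x => rfl
  have hq1 : ∀ x, q1 x = (1 - q2 x - (G x).re) / 2 := fun x => rfl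
  refine ⟨![{x | 1/3 < q0 x}, {x | 1/3 < q1 x}, {x | 1/3 < q2 x}], ?_, ?_, ?_, ?_⟩
  · intro i
    fin_cases i
    · exact isOpen_lt continuous_const c0
    · exact isOpen_lt continuous_const c1
    · exact isOpen_lt continuous_const c2
  · rw [Set.eq_univ_iff_forall]
    intro x
    rw [Set.mem_iUnion]
    by_contra hcon
    push Not at hcon
    have k0 : ¬ (1/3 < q0 x) := hcon 0
    have k1 : ¬ (1/3 < q1 x) := hcon 1
    have k2 : ¬ (1/3 < q2 x) := hcon 2
    push Not at k0 k1 k2
    rw [hq0] at k0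
    rw [hq1] at k1
    have e2 : q2 x = 1/3 := by linarith
    have e1 : (G x).re = 0 := by linarith
    rw [hq2] at e2
    have e3 : (G x).im = 0 := by linarith
    exact hG0 x (Complex.ext e1 e3)
  · have key : ∀ x, |q0 x - f 0 x| ≤ 1/100 ∧ |q1 x - f 1 x| ≤ 1/100 ∧ |q2 x - f 2 x| ≤ 1/100 := by
      intro x
      have a1 := hre x
      have a2 := him x
      rw [hHre, abs_le] at a1
      rw [hHim, abs_le] at a2
      have a3 := hsum x
      have b2 := hq2 x
      have b0 := hq0 x
      have b1 := hq1 x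
      refine ⟨?_, ?_, ?_⟩ <;> rw [abs_le] <;> constructor <;> linarith
    intro i x hx
    apply hpos
    obtain ⟨k0, k1, k2⟩ := key x
    rw [abs_le] at k0 k1 k2
    fin_cases i
    · have hx' : 1/3 < q0 x := hx
      show f 0 x ≠ 0
      intro h0
      linarith
    · have hx' : 1/3 < q1 x := hx
      show f 1 x ≠ 0
      intro h0
      linarith
    · have hx' : 1/3 < q2 x := hx
      show f 2 x ≠ 0
      intro h0
      linarith
  · rw [Set.eq_empty_iff_forall_notMem]
    rintro x ⟨⟨h0, h1⟩, h2⟩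
    have k0 : 1/3 < q0 x := h0
    have k1 : 1/3 < q1 x := h1
    have k2 : 1/3 < q2 x := h2
    rw [hq0] at k0
    rw [hq1] at k1
    linarith

theorem pairs {X : Type} [TopologicalSpace X] [CompactSpace X] [T2Space X]
    (h : AP X) {n : ℕ} (U : Fin n → Set X) (hU : ∀ i, IsOpen (U i)) (hc : (⋃ i, U i) = Set.univ)
    (S : Finset (Fin n × Fin n)) :
    ∃ V : Fin n → Set X, (∀ i, IsOpen (V i)) ∧ (⋃ i, V i) = Set.univ ∧ (∀ i, V i ⊆ U i) ∧
      ∀ i j k, (i, j) ∈ S → i ≠ j → k ≠ i → k ≠ j → V i ∩ V j ∩ V k = ∅ := by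
  classical
  induction S using Finset.induction_on with
  | empty => exact ⟨U, hU, hc, fun i => le_rfl, fun i j k hij => absurd hij (Finset.notMem_empty _)⟩
  | insert p S hp ih =>
    obtain ⟨V, hV, hVc, hVU, hVS⟩ := ih
    obtain ⟨i0, j0⟩ := p
    by_cases hij0 : i0 = j0
    · refine ⟨V, hV, hVc, hVU, ?_⟩
      intro i j k hij hne
      rcases Finset.mem_insert.mp hij with h1 | h1
      · exact absurd (by rw [(Prod.mk.inj h1).1, (Prod.mk.inj h1).2, hij0]) hne
      · exact hVS i j k h1 hne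
    · obtain ⟨W, hW, hWc, hWV, hW0⟩ := three_sets h
        ![V i0, V j0, ⋃ l ∈ {l : Fin n | l ≠ i0 ∧ l ≠ j0}, V l] (by
          intro i
          fin_cases i
          · exact hV i0
          · exact hV j0
          · exact isOpen_biUnion fun l _ => hV l) (by
          rw [Set.eq_univ_iff_forall]
          intro x
          have hx : x ∈ ⋃ i, V i := by rw [hVc]; trivial
          obtain ⟨l, hl⟩ := Set.mem_iUnion.mp hx
          rw [Set.mem_iUnion]
          by_cases h1 : l = i0
          · exact ⟨0, by rw [h1] at hl; exact hl⟩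
          · by_cases h2 : l = j0
            · exact ⟨1, by rw [h2] at hl; exact hl⟩
            · refine ⟨2, ?_⟩
              show x ∈ ⋃ l ∈ {l : Fin n | l ≠ i0 ∧ l ≠ j0}, V l
              exact Set.mem_biUnion (show l ∈ {l : Fin n | l ≠ i0 ∧ l ≠ j0} from ⟨h1, h2⟩) hl)
      have w0 : W 0 ⊆ V i0 := hWV 0
      have w1 : W 1 ⊆ V j0 := hWV 1
      have w2 : W 2 ⊆ ⋃ l ∈ {l : Fin n | l ≠ i0 ∧ l ≠ j0}, V l := hWV 2
      let V' : Fin n → Set X := fun l => if l = i0 then W 0 else if l = j0 then W 1 else V l ∩ W 2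
      have v0 : V' i0 = W 0 := if_pos rfl
      have v1 : V' j0 = W 1 := by
        show (if j0 = i0 then W 0 else if j0 = j0 then W 1 else V j0 ∩ W 2) = W 1
        rw [if_neg (Ne.symm hij0), if_pos rfl]
      have v2 : ∀ l, l ≠ i0 → l ≠ j0 → V' l = V l ∩ W 2 := by
        intro l h1 h2
        show (if l = i0 then W 0 else if l = j0 then W 1 else V l ∩ W 2) = V l ∩ W 2
        rw [if_neg h1, if_neg h2]
      have hsub : ∀ l, V' l ⊆ V l := by
        intro l
        by_cases h1 : l = i0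
        · rw [h1, v0]; exact w0
        · by_cases h2 : l = j0
          · rw [h2, v1]; exact w1
          · rw [v2 l h1 h2]; exact Set.inter_subset_left
      refine ⟨V', ?_, ?_, fun l => (hsub l).trans (hVU l), ?_⟩
      · intro l
        by_cases h1 : l = i0
        · rw [h1, v0]; exact hW 0
        · by_cases h2 : l = j0
          · rw [h2, v1]; exact hW 1
          · rw [v2 l h1 h2]; exact (hV l).inter (hW 2)
      · rw [Set.eq_univ_iff_forall]
        intro x
        have hx : x ∈ ⋃ i, W i := by rw [hWc]; trivial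
        obtain ⟨l, hl⟩ := Set.mem_iUnion.mp hx
        rw [Set.mem_iUnion]
        fin_cases l
        · exact ⟨i0, by rw [v0]; exact hl⟩
        · exact ⟨j0, by rw [v1]; exact hl⟩
        · obtain ⟨l, hl1, hl2⟩ := Set.mem_iUnion₂.mp (w2 hl)
          exact ⟨l, by rw [v2 l hl1.1 hl1.2]; exact ⟨hl2, hl⟩⟩
      · intro i j k hij hne hki hkj
        rcases Finset.mem_insert.mp hij with h1 | h1
        · have hi : i = i0 := (Prod.mk.inj h1).1
          have hj : j = j0 := (Prod.mk.inj h1).2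
          subst hi hj
          rw [v0, v1, v2 k hki hkj, Set.eq_empty_iff_forall_notMem]
          rintro x ⟨⟨h0, h1⟩, -, h2⟩
          have : x ∈ W 0 ∩ W 1 ∩ W 2 := ⟨⟨h0, h1⟩, h2⟩
          rw [hW0] at this
          exact this
        · have h2 := hVS i j k h1 hne hki hkj
          rw [Set.eq_empty_iff_forall_notMem] at h2 ⊢
          rintro x ⟨⟨h3, h4⟩, h5⟩
          exact h2 x ⟨⟨hsub _ h3, hsub _ h4⟩, hsub _ h5⟩

/-- JOB: density of nowhere zero complex functions gives covering dimension at most one. -/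
theorem dim1_of_AP {X : Type} [TopologicalSpace X] [CompactSpace X] [T2Space X]
    (h : AP X) : Dim1 X := by
  intro n U hU hc
  obtain ⟨V, hV, hVc, hVU, hVS⟩ := pairs h U hU hc Finset.univ
  refine ⟨n, V, hV, hVc, fun j => ⟨j, hVU j⟩, ?_⟩
  intro x
  by_contra hcon
  push Not at hcon
  obtain ⟨a, b, c, ha, hb, hcx, hab, hac, hbc⟩ := (Set.two_lt_ncard_iff (Set.toFinite _)).mp hcon
  have h1 := hVS a b c (Finset.mem_univ _) hab hac.symm hbc.symm
  rw [Set.eq_empty_iff_forall_notMem] at h1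
  exact h1 x ⟨⟨ha, hb⟩, hcx⟩

end Pool.Agent.B595.Cont.J3
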