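import Pool.Agent.B595.Cont.Defs

set_option autoImplicit false
open Set Topology

namespace Pool.Agent.B595.Cont.J4




theorem aux117_loc {X : Type} [TopologicalSpace X] [CompactSpace X] [T2Space X]
    [LocallyConnectedSpace X] (ψ : C(X, S1)) (x : X) :
    ∃ K ∈ 𝓝 x, ∀ y ∈ K, ∀ s : ℝ, ψ y = ((s : ℝ) : S1) → ∃ c : Set (X × ℝ), IsCompact c ∧
      IsPreconnected c ∧ c ⊆ Cov ψ ∧ (y, s) ∈ c ∧ K ⊆ Prod.fst '' c := by
  obtain ⟨s0, hs0⟩ : ∃ s0 : ℝ, ((s0 : ℝ) : S1) = ψ x := QuotientAddGroup.mk_surjective (ψ x)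
  obtain ⟨e, he1, he2⟩ := AddCircle.isLocalHomeomorph_coe (1 : ℝ) s0
  have hU : ψ ⁻¹' e.target ∈ 𝓝 x := by
    apply (e.open_target.preimage ψ.continuous).mem_nhds
    show ψ x ∈ e.target
    rw [← hs0]
    have : ((s0 : ℝ) : S1) = e s0 := by rw [← he2]
    rw [this]
    exact e.map_source he1
  obtain ⟨F, ⟨hF, hFc⟩, hFU⟩ := (closed_nhds_basis x).mem_iff.mp hU
  obtain ⟨V, ⟨hVo, hxV, hVc⟩, hVF⟩ :=
    (LocallyConnectedSpace.open_connected_basis x).mem_iff.mp hF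
  have hKF : closure V ⊆ F := closure_minimal hVF hFc
  have hKc : IsCompact (closure V) := isClosed_closure.isCompact
  have hKp : IsPreconnected (closure V) := hVc.isPreconnected.closure
  have hθ : ContinuousOn (fun w => e.symm (ψ w)) (closure V) :=
    e.continuousOn_symm.comp ψ.continuous.continuousOn (fun w hw => hFU (hKF hw))
  have hθ2 : ∀ w ∈ closure V, ((e.symm (ψ w) : ℝ) : S1) = ψ w := by
    intro w hw
    have h1 : e (e.symm (ψ w)) = ψ w := e.right_inv (hFU (hKF hw))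
    rw [← he2] at h1
    exact h1
  refine ⟨closure V, Filter.mem_of_superset (hVo.mem_nhds hxV) subset_closure, ?_⟩
  intro y hy s hs
  have hcont : ContinuousOn (fun w => ((w, e.symm (ψ w) + (s - e.symm (ψ y))) : X × ℝ))
      (closure V) := continuousOn_id.prodMk (hθ.add continuousOn_const)
  refine ⟨(fun w => ((w, e.symm (ψ w) + (s - e.symm (ψ y))) : X × ℝ)) '' closure V,
    hKc.image_of_continuousOn hcont, hKp.image _ hcont, ?_, ?_, ?_⟩
  · rintro _ ⟨w, hw, rfl⟩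
    show ψ w = ((e.symm (ψ w) + (s - e.symm (ψ y)) : ℝ) : S1)
    rw [AddCircle.coe_add, AddCircle.coe_sub, hθ2 w hw, hθ2 y hy, ← hs, sub_self, add_zero]
  · exact ⟨y, hy, by simp⟩
  · intro w hw
    exact ⟨_, ⟨w, hw, rfl⟩, rfl⟩

/-- JOB: over a locally connected continuum every circle valued map is tame. -/
theorem not_NT_of_lc {X : Type} [TopologicalSpace X] [CompactSpace X] [T2Space X]
    [ConnectedSpace X] [LocallyConnectedSpace X] (ψ : C(X, S1)) : ¬ NT ψ := by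
  intro hNT
  obtain ⟨x0⟩ : Nonempty X := inferInstance
  obtain ⟨s0, hs0⟩ : ∃ s0 : ℝ, ((s0 : ℝ) : S1) = ψ x0 := QuotientAddGroup.mk_surjective (ψ x0)
  choose K hK hKl using aux117_loc ψ
  set S : Set X := {x | ∃ c : Set (X × ℝ), IsCompact c ∧ IsPreconnected c ∧ c ⊆ Cov ψ ∧
    (x0, s0) ∈ c ∧ x ∈ Prod.fst '' c} with hS
  -- extension
  have hext : ∀ x : X, (K x ∩ S).Nonempty → ∃ c : Set (X × ℝ), IsCompact c ∧ IsPreconnected c ∧
      c ⊆ Cov ψ ∧ (x0, s0) ∈ c ∧ K x ⊆ Prod.fst '' c := by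
    rintro x ⟨y, hyK, c, hc1, hc2, hc3, hc4, ⟨⟨y', s⟩, hys, rfl⟩⟩
    obtain ⟨c', h1, h2, h3, h4, h5⟩ := hKl x y' hyK s (hc3 hys)
    refine ⟨c ∪ c', hc1.union h1, hc2.union (y', s) hys h4 h2, union_subset hc3 h3,
      Or.inl hc4, ?_⟩
    rw [image_union]
    exact h5.trans subset_union_right
  have hSsub : ∀ x : X, (K x ∩ S).Nonempty → K x ⊆ S := by
    intro x hx y hy
    obtain ⟨c, h1, h2, h3, h4, h5⟩ := hext x hx
    exact ⟨c, h1, h2, h3, h4, h5 hy⟩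
  have hxK : ∀ x, x ∈ K x := fun x => mem_of_mem_nhds (hK x)
  have hopen : IsOpen S := by
    rw [isOpen_iff_mem_nhds]
    intro x hx
    exact Filter.mem_of_superset (hK x) (hSsub x ⟨x, hxK x, hx⟩)
  have hclosed : IsClosed S := by
    rw [← closure_subset_iff_isClosed]
    intro x hx
    obtain ⟨y, hy1, hy2⟩ := mem_closure_iff_nhds.mp hx (K x) (hK x)
    exact hSsub x ⟨y, hy1, hy2⟩ (hxK x)
  have hx0 : x0 ∈ S := by
    refine ⟨{(x0, s0)}, isCompact_singleton, isPreconnected_singleton, ?_, rfl, ?_⟩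
    · rintro p rfl
      exact hs0.symm
    · exact ⟨(x0, s0), rfl, rfl⟩
  have hSuniv : S = univ := IsClopen.eq_univ ⟨hclosed, hopen⟩ ⟨x0, hx0⟩
  have hfin : ∃ c : Set (X × ℝ), IsCompact c ∧ IsPreconnected c ∧
      c ⊆ Cov ψ ∧ (x0, s0) ∈ c ∧ (univ : Set X) ⊆ Prod.fst '' c := by
    refine isCompact_univ.induction_on (p := fun T => ∃ c : Set (X × ℝ), IsCompact c ∧
      IsPreconnected c ∧ c ⊆ Cov ψ ∧ (x0, s0) ∈ c ∧ T ⊆ Prod.fst '' c) ?_ ?_ ?_ ?_
    · refine ⟨{(x0, s0)}, isCompact_singleton, isPreconnected_singleton, ?_, rfl,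
        empty_subset _⟩
      rintro p rfl
      exact hs0.symm
    · rintro T T' hTT' ⟨c, h1, h2, h3, h4, h5⟩
      exact ⟨c, h1, h2, h3, h4, hTT'.trans h5⟩
    · rintro T T' ⟨c, h1, h2, h3, h4, h5⟩ ⟨c', h1', h2', h3', h4', h5'⟩
      refine ⟨c ∪ c', h1.union h1', h2.union (x0, s0) h4 h4' h2', union_subset h3 h3',
        Or.inl h4, ?_⟩
      rw [image_union]
      exact union_subset_union h5 h5'
    · intro x _
      refine ⟨K x, mem_nhdsWithin_of_mem_nhds (hK x), ?_⟩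
      apply hext x
      exact ⟨x, hxK x, by rw [hSuniv]; trivial⟩
  obtain ⟨c, h1, h2, h3, _, h5⟩ := hfin
  apply hNT c c h1 h2 h3 h1 h2 h3
  rw [union_self]
  exact univ_subset_iff.mp h5

end Pool.Agent.B595.Cont.J4
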