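import Pool.Agent.B595.Cont.Defs

set_option autoImplicit false
open Set Topology

namespace Pool.Agent.B595.Cont.J5




/-- JOB part 1 -/
theorem NT_transfer {X Y : Type} [TopologicalSpace X] [TopologicalSpace Y] (q : C(X, Y))
    (hq : Function.Surjective q) (ψX : C(X, S1)) (ψY : C(Y, S1)) (θ : C(X, ℝ))
    (h : ∀ x, ψX x = ψY (q x) + ((θ x : ℝ) : S1)) (hY : NT ψY) : NT ψX := by
  intro c c' hc hcp hcs hc' hcp' hcs' hcov
  have hF : Continuous (fun p : X × ℝ => (q p.1, p.2 - θ p.1)) := by fun_prop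
  have hsub : ∀ d : Set (X × ℝ), d ⊆ Cov ψX →
      (fun p : X × ℝ => (q p.1, p.2 - θ p.1)) '' d ⊆ Cov ψY := by
    rintro d hd _ ⟨p, hp, rfl⟩
    have h1 : ψX p.1 = ((p.2 : ℝ) : S1) := hd hp
    change ψY (q p.1) = ((p.2 - θ p.1 : ℝ) : S1)
    rw [AddCircle.coe_sub, ← h1, h p.1]
    abel
  refine hY _ _ (hc.image hF) (hcp.image _ hF.continuousOn) (hsub c hcs) (hc'.image hF)
    (hcp'.image _ hF.continuousOn) (hsub c' hcs') ?_
  rw [eq_univ_iff_forall]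
  intro y
  obtain ⟨x, rfl⟩ := hq y
  have hx : x ∈ Prod.fst '' c ∪ Prod.fst '' c' := by rw [hcov]; exact mem_univ x
  rcases hx with ⟨p, hp, rfl⟩ | ⟨p, hp, rfl⟩
  · left
    exact ⟨_, ⟨p, hp, rfl⟩, rfl⟩
  · right
    exact ⟨_, ⟨p, hp, rfl⟩, rfl⟩

/-- JOB part 2 -/
theorem Lif_transfer {X Y : Type} [TopologicalSpace X] [TopologicalSpace Y] (q : C(X, Y))
    (ψX : C(X, S1)) (ψY : C(Y, S1)) (θ : C(X, ℝ))
    (h : ∀ x, ψX x = ψY (q x) + ((θ x : ℝ) : S1)) (hY : Lif ψY) : Lif ψX := by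
  obtain ⟨η, hη⟩ := hY
  refine ⟨η.comp q + θ, fun x => ?_⟩
  rw [h x, hη (q x)]
  simp

/-- JOB part 3 -/
theorem PP_of_unit : PP Unit := by
  intro ψ
  left
  obtain ⟨r, hr⟩ := QuotientAddGroup.mk_surjective (ψ ())
  refine ⟨ContinuousMap.const _ r, fun x => ?_⟩
  cases x
  simpa using hr.symm

/-- JOB part 4 -/
theorem PP_prod {Y : Type} [TopologicalSpace Y] (h : PP Y) : PP (Y × unitInterval) := by
  intro ψ
  let ψY : C(Y, S1) := ⟨fun y => ψ (y, 0), by fun_prop⟩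
  let H : C(unitInterval × Y, S1) := ⟨fun p => ψ (p.2, p.1) - ψ (p.2, 0), by fun_prop⟩
  have cov := AddCircle.isCoveringMap_coe (1 : ℝ)
  have H0 : ∀ a : Y, H (0, a) = (((0 : C(Y, ℝ)) a : ℝ) : S1) := by
    intro a
    simp [H]
  let θ' := cov.liftHomotopy H (0 : C(Y, ℝ)) H0
  have hθ' : ∀ p, ((θ' p : ℝ) : S1) = H p := fun p => congr_fun (cov.liftHomotopy_lifts H _ H0) p
  let q : C(Y × unitInterval, Y) := ⟨Prod.fst, continuous_fst⟩
  let θ : C(Y × unitInterval, ℝ) := ⟨fun p => θ' (p.2, p.1), by fun_prop⟩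
  have hq : Function.Surjective q := fun y => ⟨(y, 0), rfl⟩
  have hh : ∀ x, ψ x = ψY (q x) + ((θ x : ℝ) : S1) := by
    intro x
    change ψ x = ψ (x.1, 0) + ((θ' (x.2, x.1) : ℝ) : S1)
    rw [hθ']
    change ψ x = ψ (x.1, 0) + (ψ (x.1, x.2) - ψ (x.1, 0))
    simp
  rcases h ψY with h1 | h1
  · left
    exact Lif_transfer q ψ ψY θ hh h1
  · right
    exact NT_transfer q hq ψ ψY θ hh h1

/-- JOB part 5: symmetric form of `NT` under negation -/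
theorem NT_neg {X : Type} [TopologicalSpace X] (ψ : C(X, S1)) (h : NT (-ψ)) : NT ψ := by
  intro c c' hc hcp hcs hc' hcp' hcs' hcov
  have hF : Continuous (fun p : X × ℝ => (p.1, -p.2)) := by fun_prop
  have hsub : ∀ d : Set (X × ℝ), d ⊆ Cov ψ →
      (fun p : X × ℝ => (p.1, -p.2)) '' d ⊆ Cov (-ψ) := by
    rintro d hd _ ⟨p, hp, rfl⟩
    have h1 : ψ p.1 = ((p.2 : ℝ) : S1) := hd hp
    change (-ψ) p.1 = ((-p.2 : ℝ) : S1)
    rw [AddCircle.coe_neg, ← h1]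
    rfl
  refine h _ _ (hc.image hF) (hcp.image _ hF.continuousOn) (hsub c hcs) (hc'.image hF)
    (hcp'.image _ hF.continuousOn) (hsub c' hcs') ?_
  rw [eq_univ_iff_forall]
  intro x
  have hx : x ∈ Prod.fst '' c ∪ Prod.fst '' c' := by rw [hcov]; exact mem_univ x
  rcases hx with ⟨p, hp, rfl⟩ | ⟨p, hp, rfl⟩
  · left
    exact ⟨_, ⟨p, hp, rfl⟩, rfl⟩
  · right
    exact ⟨_, ⟨p, hp, rfl⟩, rfl⟩

end Pool.Agent.B595.Cont.J5
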