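import Pool.Agent.B595.Cont.Defs

set_option autoImplicit false
open Set Topology

namespace Pool.Agent.B595.Cont.J6




/-- JOB: standard form of circle valued maps on `F × S1`. -/
theorem dec {F : Type} [TopologicalSpace F] [CompactSpace F] [T2Space F]
    (v : C(F × S1, S1)) : ∃ (k : C(F, ℤ)) (η : C(F, S1)) (ζ : C(F × S1, ℝ)),
      ∀ f t, v (f, t) = k f • t + η f + ((ζ (f, t) : ℝ) : S1) := by
  have hcov : IsCoveringMap ((↑) : ℝ → S1) := AddCircle.isCoveringMap_coe (1 : ℝ)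
  have hcoe : Continuous ((↑) : ℝ → S1) := hcov.continuous
  let H : C(unitInterval × F, S1) :=
    ⟨fun x => v (x.2, ((x.1 : ℝ) : S1)) - v (x.2, 0), by fun_prop⟩
  have hH0 : ∀ a : F, H (0, a) = (((0 : C(F, ℝ)) a : ℝ) : S1) := by
    intro a
    show v (a, (((0 : unitInterval) : ℝ) : S1)) - v (a, 0) = ((0 : ℝ) : S1)
    rw [Set.Icc.coe_zero, AddCircle.coe_zero, sub_self]
  let L : C(unitInterval × F, ℝ) := hcov.liftHomotopy H (0 : C(F, ℝ)) hH0
  have hL : ∀ (l : unitInterval) (f : F), ((L (l, f) : ℝ) : S1) =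
      v (f, ((l : ℝ) : S1)) - v (f, 0) := by
    intro l f
    exact congr_fun (hcov.liftHomotopy_lifts H (0 : C(F, ℝ)) hH0) (l, f)
  have hL0 : ∀ f, L (0, f) = 0 := fun f => hcov.liftHomotopy_zero H (0 : C(F, ℝ)) hH0 f
  have hL1 : ∀ f, ∃ m : ℤ, (m : ℝ) = L (1, f) := by
    intro f
    have h1 := hL 1 f
    rw [Set.Icc.coe_one] at h1
    have h2 : ((1 : ℝ) : S1) = 0 := AddCircle.coe_period (1 : ℝ)
    rw [h2, sub_self, AddCircle.coe_eq_zero_iff] at h1
    obtain ⟨m, hm⟩ := h1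
    exact ⟨m, by rw [← hm, zsmul_eq_mul, mul_one]⟩
  choose k hk using hL1
  have hkc : Continuous k := by
    rw [Int.isClosedEmbedding_coe_real.isInducing.continuous_iff]
    have : ((↑) : ℤ → ℝ) ∘ k = fun f => L (1, f) := by
      funext f
      exact hk f
    rw [this]
    fun_prop
  let q : C(F × unitInterval, F × S1) := ⟨fun x => (x.1, ((x.2 : ℝ) : S1)), by fun_prop⟩
  have hqs : Function.Surjective q := by
    rintro ⟨f, t⟩
    have ht : t ∈ ((↑) : ℝ → AddCircle (1 : ℝ)) '' Set.Icc 0 (0 + 1) := by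
      rw [AddCircle.coe_image_Icc_eq (1 : ℝ) 0]
      exact Set.mem_univ _
    obtain ⟨l, hl, hlt⟩ := ht
    rw [zero_add] at hl
    refine ⟨(f, ⟨l, hl⟩), ?_⟩
    show (f, ((l : ℝ) : S1)) = (f, t)
    rw [hlt]
  have hq : IsQuotientMap q := IsQuotientMap.of_surjective_continuous hqs q.continuous
  let z : C(F × unitInterval, ℝ) := ⟨fun x => L (x.2, x.1) - (x.2 : ℝ) * (k x.1 : ℝ), by
    have : Continuous fun x : F => (k x : ℝ) := Int.isClosedEmbedding_coe_real.continuous.comp hkc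
    fun_prop⟩
  have hz0 : ∀ f, z (f, 0) = 0 := by
    intro f
    show L (0, f) - ((0 : unitInterval) : ℝ) * (k f : ℝ) = 0
    rw [hL0, Set.Icc.coe_zero, zero_mul, sub_zero]
  have hz1 : ∀ f, z (f, 1) = 0 := by
    intro f
    show L (1, f) - ((1 : unitInterval) : ℝ) * (k f : ℝ) = 0
    rw [hk, Set.Icc.coe_one, one_mul, sub_self]
  have hfac : Function.FactorsThrough z q := by
    rintro ⟨f, l⟩ ⟨f', l'⟩ h
    have h' : (f, ((l : ℝ) : S1)) = (f', ((l' : ℝ) : S1)) := h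
    rw [Prod.mk.injEq] at h'
    obtain ⟨h1, h2⟩ := h'
    subst h1
    have h3 : (((l : ℝ) - (l' : ℝ) : ℝ) : S1) = 0 := by
      rw [AddCircle.coe_sub, h2, sub_self]
    rw [AddCircle.coe_eq_zero_iff] at h3
    obtain ⟨m, hm⟩ := h3
    rw [zsmul_eq_mul, mul_one] at hm
    have a1 := l.2.1
    have a2 := l.2.2
    have a3 := l'.2.1
    have a4 := l'.2.2
    have hm1 : (-1 : ℝ) ≤ m := by linarith
    have hm2 : (m : ℝ) ≤ 1 := by linarith
    have hm1' : -1 ≤ m := by exact_mod_cast hm1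
    have hm2' : m ≤ 1 := by exact_mod_cast hm2
    have hcases : m = -1 ∨ m = 0 ∨ m = 1 := by omega
    rcases hcases with h | h | h
    · rw [h] at hm
      push_cast at hm
      have e1 : l = 0 := Subtype.ext (by rw [Set.Icc.coe_zero]; linarith)
      have e2 : l' = 1 := Subtype.ext (by rw [Set.Icc.coe_one]; linarith)
      rw [e1, e2, hz0, hz1]
    · rw [h] at hm
      push_cast at hm
      have e1 : l = l' := Subtype.ext (by linarith)
      rw [e1]
    · rw [h] at hm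
      push_cast at hm
      have e1 : l = 1 := Subtype.ext (by rw [Set.Icc.coe_one]; linarith)
      have e2 : l' = 0 := Subtype.ext (by rw [Set.Icc.coe_zero]; linarith)
      rw [e1, e2, hz0, hz1]
  let ζ : C(F × S1, ℝ) := hq.lift z hfac
  have hζ : ∀ x, ζ (q x) = z x := fun x => congrArg (fun g : C(F × unitInterval, ℝ) => g x)
    (hq.lift_comp z hfac)
  refine ⟨⟨k, hkc⟩, ⟨fun f => v (f, 0), by fun_prop⟩, ζ, fun f t => ?_⟩
  obtain ⟨⟨f', l⟩, hfl⟩ := hqs (f, t)
  have hfl' : (f', ((l : ℝ) : S1)) = (f, t) := hfl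
  rw [Prod.mk.injEq] at hfl'
  obtain ⟨h1, h2⟩ := hfl'
  subst h1
  rw [← hfl, hζ]
  have hzd : z (f', l) = L (l, f') - (l : ℝ) * (k f' : ℝ) := rfl
  show v (q (f', l)) = k f' • t + v (f', 0) + ((z (f', l) : ℝ) : S1)
  rw [hzd, AddCircle.coe_sub, hL, ← h2, mul_comm, ← zsmul_eq_mul, AddCircle.coe_zsmul]
  show v (f', ((l : ℝ) : S1)) = _
  abel

end Pool.Agent.B595.Cont.J6
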