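import Pool.Agent.B595.Cont.Defs

set_option autoImplicit false
open Set Topology

namespace Pool.Agent.B595.Cont.J7




section
variable (B : ℕ → Type) [∀ n, TopologicalSpace (B n)] [∀ n, CompactSpace (B n)]
  [∀ n, T2Space (B n)] (r : ∀ n, C(B (n + 1), B n))

omit [∀ n, CompactSpace (B n)] [∀ n, T2Space (B n)] in
theorem prj_rel (n : ℕ) (x : Lim B r) : r n (prj B r (n + 1) x) = prj B r n x := x.2 n

omit [∀ n, CompactSpace (B n)] [∀ n, T2Space (B n)] in
theorem prj_det {n m : ℕ} (h : n ≤ m) {x y : Lim B r} (hxy : prj B r m x = prj B r m y) :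
    prj B r n x = prj B r n y := by
  induction m, h using Nat.le_induction with
  | base => exact hxy
  | succ m hm ih =>
    apply ih
    rw [← prj_rel B r m x, ← prj_rel B r m y, hxy]

omit [∀ n, CompactSpace (B n)] [∀ n, T2Space (B n)] in
theorem lim_ext {x y : Lim B r} (h : ∀ n, prj B r n x = prj B r n y) : x = y := by
  apply Subtype.ext
  funext n
  exact h n

/-- JOB part 1 -/
theorem lim_compact : CompactSpace (Lim B r) := by
  have h : IsClosed {x : (∀ n, B n) | ∀ n, r n (x (n + 1)) = x n} := by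
    rw [setOf_forall]
    apply isClosed_iInter
    intro n
    exact isClosed_eq ((r n).continuous.comp (continuous_apply (n + 1))) (continuous_apply n)
  exact isCompact_iff_compactSpace.1 h.isCompact

/-- JOB part 2 -/
theorem lim_t2 : T2Space (Lim B r) :=
  inferInstanceAs (T2Space {x : (∀ n, B n) // ∀ n, r n (x (n + 1)) = x n})

omit [∀ n, CompactSpace (B n)] [∀ n, T2Space (B n)] in
theorem down_ext [∀ n, Nonempty (B n)] (n : ℕ) : ∀ b : B n, ∃ x : ∀ m, B m, x n = b ∧
    ∀ k < n, r k (x (k + 1)) = x k := by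
  classical
  induction n with
  | zero =>
    intro b
    refine ⟨Function.update (fun m => Classical.arbitrary (B m)) 0 b, Function.update_self _ _ _, ?_⟩
    intro k hk
    omega
  | succ n ih =>
    intro b
    obtain ⟨x, hx1, hx2⟩ := ih (r n b)
    refine ⟨Function.update x (n + 1) b, Function.update_self _ _ _, ?_⟩
    intro k hk
    rcases Nat.lt_succ_iff_lt_or_eq.1 hk with h | h
    · rw [Function.update_of_ne (by omega), Function.update_of_ne (by omega)]
      exact hx2 k h
    · subst h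
      rw [Function.update_self, Function.update_of_ne (by omega), hx1]

/-- JOB part 3 -/
theorem prj_surjective [∀ n, Nonempty (B n)] (hs : ∀ n, Function.Surjective (r n)) (n : ℕ) :
    Function.Surjective (prj B r n) := by
  intro b
  obtain ⟨x, hx1, hx2⟩ := down_ext B r n b
  let y : ∀ m, B m := fun m => Nat.rec (motive := B) (x 0)
    (fun m ym => if m + 1 ≤ n then x (m + 1) else Function.surjInv (hs m) ym) m
  have hy0 : y 0 = x 0 := rfl
  have hys : ∀ m, y (m + 1) = if m + 1 ≤ n then x (m + 1) else Function.surjInv (hs m) (y m) :=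
    fun m => rfl
  have hyx : ∀ m, m ≤ n → y m = x m := by
    intro m hm
    cases m with
    | zero => rfl
    | succ m => rw [hys, if_pos hm]
  have hyc : ∀ m, r m (y (m + 1)) = y m := by
    intro m
    by_cases h : m + 1 ≤ n
    · rw [hyx (m + 1) h, hyx m (by omega)]
      exact hx2 m (by omega)
    · rw [hys, if_neg h]
      exact Function.surjInv_eq (hs m) (y m)
  refine ⟨⟨y, hyc⟩, ?_⟩
  show y n = b
  rw [hyx n le_rfl, hx1]

/-- closed surjections with preconnected fibres -/
theorem preconn_preimage {X Y : Type} [TopologicalSpace X] [CompactSpace X] [TopologicalSpace Y]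
    [T2Space Y] (f : C(X, Y)) (hf : Function.Surjective f)
    (hm : ∀ b, IsPreconnected (f ⁻¹' {b})) {K : Set Y} (hK : IsClosed K) (hc : IsPreconnected K) :
    IsPreconnected (f ⁻¹' K) := by
  rw [isPreconnected_closed_iff]
  intro t t' ht ht' hcov h1 h2
  have hS : IsClosed (f ⁻¹' K) := hK.preimage f.continuous
  have hT : IsClosed (f '' (f ⁻¹' K ∩ t)) := ((hS.inter ht).isCompact.image f.continuous).isClosed
  have hT' : IsClosed (f '' (f ⁻¹' K ∩ t')) :=
    ((hS.inter ht').isCompact.image f.continuous).isClosed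
  have hcov2 : K ⊆ f '' (f ⁻¹' K ∩ t) ∪ f '' (f ⁻¹' K ∩ t') := by
    intro y hy
    obtain ⟨x, rfl⟩ := hf y
    rcases hcov hy with h | h
    · exact Or.inl ⟨x, ⟨hy, h⟩, rfl⟩
    · exact Or.inr ⟨x, ⟨hy, h⟩, rfl⟩
  obtain ⟨x1, hx1, hx1t⟩ := h1
  obtain ⟨x2, hx2, hx2t⟩ := h2
  obtain ⟨y, hy, ⟨u, ⟨hu1, hu2⟩, hu3⟩, ⟨v, ⟨hv1, hv2⟩, hv3⟩⟩ :=
    isPreconnected_closed_iff.1 hc _ _ hT hT' hcov2 ⟨f x1, hx1, x1, ⟨hx1, hx1t⟩, rfl⟩
      ⟨f x2, hx2, x2, ⟨hx2, hx2t⟩, rfl⟩
  have hfib : f ⁻¹' {y} ⊆ f ⁻¹' K := by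
    intro z hz
    rw [mem_preimage, mem_singleton_iff] at hz
    rw [mem_preimage, hz]
    exact hy
  obtain ⟨z, hz1, hz2⟩ := isPreconnected_closed_iff.1 (hm y) t t' ht ht' (hfib.trans hcov)
    ⟨u, hu3, hu2⟩ ⟨v, hv3, hv2⟩
  exact ⟨z, hfib hz1, hz2⟩

/-- a decreasing sequence of compact preconnected sets -/
theorem preconn_iInter {X : Type} [TopologicalSpace X] [T2Space X] (C : ℕ → Set X)
    (hC : ∀ n, IsCompact (C n)) (hp : ∀ n, IsPreconnected (C n)) (hd : ∀ n, C (n + 1) ⊆ C n) :
    IsPreconnected (⋂ n, C n) := by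
  rw [isPreconnected_closed_iff]
  intro t t' ht ht' hcov h1 h2
  by_contra hne
  have hanti : Antitone C := antitone_nat_of_succ_le hd
  have hI : IsCompact (⋂ n, C n) := (hC 0).of_isClosed_subset
    (isClosed_iInter fun n => (hC n).isClosed) (iInter_subset _ 0)
  have hdis : Disjoint ((⋂ n, C n) ∩ t) ((⋂ n, C n) ∩ t') := by
    rw [Set.disjoint_left]
    intro x hx hx'
    exact hne ⟨x, hx.1, hx.2, hx'.2⟩
  obtain ⟨U, V, hU, hV, hU1, hV1, hUV⟩ :=
    SeparatedNhds.of_isCompact_isCompact (hI.inter_right ht) (hI.inter_right ht') hdis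
  obtain ⟨n, hn⟩ := exists_subset_nhds_of_isCompact' (V := C) (U := U ∪ V)
    (directed_of_isDirected_le (fun a b hab => hanti hab)) hC (fun n => (hC n).isClosed) (by
      intro x hx
      apply (hU.union hV).mem_nhds
      rcases hcov hx with h | h
      · exact Or.inl (hU1 ⟨hx, h⟩)
      · exact Or.inr (hV1 ⟨hx, h⟩))
  obtain ⟨x1, hx1, hx1t⟩ := h1
  obtain ⟨x2, hx2, hx2t⟩ := h2
  obtain ⟨z, -, hz1, hz2⟩ := hp n U V hU hV hn
    ⟨x1, mem_iInter.1 hx1 n, hU1 ⟨hx1, hx1t⟩⟩ ⟨x2, mem_iInter.1 hx2 n, hV1 ⟨hx2, hx2t⟩⟩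
  exact Set.disjoint_left.1 hUV hz1 hz2

/-- JOB part 4 -/
theorem prj_preconnected [∀ n, Nonempty (B n)] (hs : ∀ n, Function.Surjective (r n))
    (hm : ∀ n b, IsPreconnected (r n ⁻¹' {b})) (n : ℕ) (K : Set (B n)) (hK : IsClosed K)
    (hc : IsPreconnected K) : IsPreconnected (prj B r n ⁻¹' K) := by
  have := lim_compact B r
  have := lim_t2 B r
  have hsur := prj_surjective B r hs
  have hS : IsClosed (prj B r n ⁻¹' K) := hK.preimage (prj B r n).continuous
  have hP : ∀ m, n ≤ m → IsClosed (prj B r m '' (prj B r n ⁻¹' K)) ∧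
      IsPreconnected (prj B r m '' (prj B r n ⁻¹' K)) := by
    intro m hnm
    refine ⟨(hS.isCompact.image (prj B r m).continuous).isClosed, ?_⟩
    induction m, hnm using Nat.le_induction with
    | base =>
      rw [Set.image_preimage_eq _ (hsur n)]
      exact hc
    | succ m hnm ih =>
      have hcl : IsClosed (prj B r m '' (prj B r n ⁻¹' K)) :=
        (hS.isCompact.image (prj B r m).continuous).isClosed
      have heq : prj B r (m + 1) '' (prj B r n ⁻¹' K) =
          r m ⁻¹' (prj B r m '' (prj B r n ⁻¹' K)) := by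
        apply Set.Subset.antisymm
        · rintro _ ⟨x, hx, rfl⟩
          exact ⟨x, hx, (prj_rel B r m x).symm⟩
        · intro y hy
          obtain ⟨x, rfl⟩ := hsur (m + 1) y
          obtain ⟨x', hx', hxx⟩ := hy
          rw [prj_rel] at hxx
          refine ⟨x, ?_, rfl⟩
          have := prj_det B r hnm hxx
          rw [mem_preimage, ← this]
          exact hx'
      rw [heq]
      exact preconn_preimage (r m) (hs m) (hm m) hcl ih
  rw [isPreconnected_closed_iff]
  intro t t' ht ht' hcov h1 h2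
  let T : ℕ → Set (Lim B r × Lim B r) := fun j =>
    ((prj B r n ⁻¹' K ∩ t) ×ˢ (prj B r n ⁻¹' K ∩ t')) ∩
      {p | prj B r (n + j) p.1 = prj B r (n + j) p.2}
  have hTcl : ∀ j, IsClosed (T j) := fun j => ((hS.inter ht).prod (hS.inter ht')).inter
    (isClosed_eq ((prj B r (n + j)).continuous.comp continuous_fst)
      ((prj B r (n + j)).continuous.comp continuous_snd))
  have hne : (⋂ j, T j).Nonempty := by
    apply IsCompact.nonempty_iInter_of_sequence_nonempty_isCompact_isClosed
    · intro j p hp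
      exact ⟨hp.1, prj_det B r (by omega : n + j ≤ n + (j + 1)) hp.2⟩
    · intro j
      have hQ : IsClosed (prj B r (n + j) '' (prj B r n ⁻¹' K ∩ t)) :=
        ((hS.inter ht).isCompact.image (prj B r (n + j)).continuous).isClosed
      have hQ' : IsClosed (prj B r (n + j) '' (prj B r n ⁻¹' K ∩ t')) :=
        ((hS.inter ht').isCompact.image (prj B r (n + j)).continuous).isClosed
      obtain ⟨x1, hx1, hx1t⟩ := h1
      obtain ⟨x2, hx2, hx2t⟩ := h2
      have hcov2 : prj B r (n + j) '' (prj B r n ⁻¹' K) ⊆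
          prj B r (n + j) '' (prj B r n ⁻¹' K ∩ t) ∪ prj B r (n + j) '' (prj B r n ⁻¹' K ∩ t') := by
        rintro _ ⟨x, hx, rfl⟩
        rcases hcov hx with h | h
        · exact Or.inl ⟨x, ⟨hx, h⟩, rfl⟩
        · exact Or.inr ⟨x, ⟨hx, h⟩, rfl⟩
      obtain ⟨y, hy, ⟨u, hu1, hu2⟩, ⟨v, hv1, hv2⟩⟩ :=
        isPreconnected_closed_iff.1 (hP (n + j) (by omega)).2 _ _ hQ hQ' hcov2
          ⟨_, ⟨x1, hx1, rfl⟩, ⟨x1, ⟨hx1, hx1t⟩, rfl⟩⟩ ⟨_, ⟨x2, hx2, rfl⟩, ⟨x2, ⟨hx2, hx2t⟩, rfl⟩⟩
      exact ⟨(u, v), ⟨hu1, hv1⟩, by rw [mem_setOf_eq]; simp only [hu2, hv2]⟩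
    · exact (hTcl 0).isCompact
    · exact hTcl
  obtain ⟨⟨x, y⟩, hxy⟩ := hne
  rw [mem_iInter] at hxy
  have hxy' : x = y := by
    apply lim_ext
    intro m
    exact prj_det B r (by omega : m ≤ n + m) (hxy m).2
  subst hxy'
  have h3 := (hxy 0).1
  exact ⟨x, h3.1.1, h3.1.2, h3.2.2⟩

/-- JOB part 5 -/
theorem lim_connected [∀ n, ConnectedSpace (B n)] (hs : ∀ n, Function.Surjective (r n))
    (hm : ∀ n b, IsPreconnected (r n ⁻¹' {b})) : ConnectedSpace (Lim B r) := by
  have h1 := prj_preconnected B r hs hm 0 univ isClosed_univ isPreconnected_univ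
  rw [preimage_univ] at h1
  have h2 : Nonempty (Lim B r) := by
    obtain ⟨x, -⟩ := prj_surjective B r hs 0 (Classical.arbitrary (B 0))
    exact ⟨x⟩
  have : PreconnectedSpace (Lim B r) := ⟨h1⟩
  exact { toPreconnectedSpace := this, toNonempty := h2 }

/-- JOB part 6 -/
theorem lim_uni [∀ n, ConnectedSpace (B n)] (hs : ∀ n, Function.Surjective (r n))
    (hm : ∀ n b, IsPreconnected (r n ⁻¹' {b})) (hu : ∀ n, Uni (B n)) : Uni (Lim B r) := by
  have := lim_compact B r
  have := lim_t2 B r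
  have := lim_connected B r hs hm
  have hsur := prj_surjective B r hs
  intro A A' hA hA' hAc hAc' hAA
  have hcl : ∀ n, IsClosed (prj B r n '' A) := fun n =>
    (hA.isCompact.image (prj B r n).continuous).isClosed
  have hcl' : ∀ n, IsClosed (prj B r n '' A') := fun n =>
    (hA'.isCompact.image (prj B r n).continuous).isClosed
  have hun : ∀ n, IsConnected (prj B r n '' A ∩ prj B r n '' A') := by
    intro n
    apply hu n _ _ (hcl n) (hcl' n) (hAc.image _ (prj B r n).continuous.continuousOn)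
      (hAc'.image _ (prj B r n).continuous.continuousOn)
    rw [← image_union, hAA, image_univ]
    exact (hsur n).range_eq
  -- description of the intersection
  have hmem : ∀ D : Set (Lim B r), IsClosed D → ∀ x, (∀ n, prj B r n x ∈ prj B r n '' D) → x ∈ D := by
    intro D hD x hx
    have hne : (⋂ n, D ∩ {a | prj B r n a = prj B r n x}).Nonempty := by
      apply IsCompact.nonempty_iInter_of_sequence_nonempty_isCompact_isClosed
      · intro n a ha
        exact ⟨ha.1, prj_det B r (by omega : n ≤ n + 1) ha.2⟩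
      · intro n
        obtain ⟨a, ha, hax⟩ := hx n
        exact ⟨a, ha, hax⟩
      · exact (hD.inter (isClosed_eq (prj B r 0).continuous continuous_const)).isCompact
      · intro n
        exact hD.inter (isClosed_eq (prj B r n).continuous continuous_const)
    obtain ⟨a, ha⟩ := hne
    rw [mem_iInter] at ha
    have : a = x := lim_ext B r (fun n => (ha n).2)
    rw [← this]
    exact (ha 0).1
  have heq : A ∩ A' = ⋂ n, prj B r n ⁻¹' (prj B r n '' A ∩ prj B r n '' A') := by
    apply Set.Subset.antisymm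
    · intro x hx
      rw [mem_iInter]
      intro n
      exact ⟨⟨x, hx.1, rfl⟩, ⟨x, hx.2, rfl⟩⟩
    · intro x hx
      rw [mem_iInter] at hx
      exact ⟨hmem A hA x (fun n => (hx n).1), hmem A' hA' x (fun n => (hx n).2)⟩
  have hpre : IsPreconnected (A ∩ A') := by
    rw [heq]
    apply preconn_iInter
    · intro n
      exact (((hcl n).inter (hcl' n)).preimage (prj B r n).continuous).isCompact
    · intro n
      exact prj_preconnected B r hs hm n _ ((hcl n).inter (hcl' n)) (hun n).isPreconnected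
    · intro n x hx
      obtain ⟨⟨a, ha, hax⟩, ⟨a', ha', hax'⟩⟩ := hx
      exact ⟨⟨a, ha, prj_det B r (by omega : n ≤ n + 1) hax⟩,
        ⟨a', ha', prj_det B r (by omega : n ≤ n + 1) hax'⟩⟩
  refine ⟨?_, hpre⟩
  have h3 := isPreconnected_closed_iff.1 (isPreconnected_univ (α := Lim B r)) A A' hA hA'
    (by rw [hAA]) (by rw [univ_inter]; exact hAc.nonempty) (by rw [univ_inter]; exact hAc'.nonempty)
  rwa [univ_inter] at h3

/-- JOB part 7 -/
theorem lim_mapo [∀ n, ConnectedSpace (B n)] (hs : ∀ n, Function.Surjective (r n))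
    (hm : ∀ n b, IsPreconnected (r n ⁻¹' {b})) (hu : ∀ n, MApo (B n)) : MApo (Lim B r) := by
  have hsur := prj_surjective B r hs
  intro x y hxy
  obtain ⟨n, hn⟩ : ∃ n, prj B r n x ≠ prj B r n y := by
    by_contra hc
    push Not at hc
    exact hxy (lim_ext B r hc)
  obtain ⟨K, L, hK, hKc, hL, hLc, hKL, hxK, hyL⟩ := hu n _ _ hn
  refine ⟨prj B r n ⁻¹' K, prj B r n ⁻¹' L, hK.preimage (prj B r n).continuous, ⟨?_, ?_⟩,
    hL.preimage (prj B r n).continuous, ⟨?_, ?_⟩, hKL.preimage _, ?_, ?_⟩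
  · exact hKc.nonempty.preimage (hsur n)
  · exact prj_preconnected B r hs hm n K hK hKc.isPreconnected
  · exact hLc.nonempty.preimage (hsur n)
  · exact prj_preconnected B r hs hm n L hL hLc.isPreconnected
  · exact preimage_interior_subset_interior_preimage (prj B r n).continuous hxK
  · exact preimage_interior_subset_interior_preimage (prj B r n).continuous hyL

end

end Pool.Agent.B595.Cont.J7

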