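import Pool.Agent.B595.Cont.Defs

set_option autoImplicit false
open Set Topology

namespace Pool.Agent.B595.Cont.J8




section
variable (B : ℕ → Type) [∀ n, TopologicalSpace (B n)] [∀ n, CompactSpace (B n)]
  [∀ n, T2Space (B n)] (r : ∀ n, C(B (n + 1), B n))

theorem lim_down [CompactSpace (Lim B r)] (x y : Lim B r) (n m : ℕ) (hnm : n ≤ m)
    (h : x.1 m = y.1 m) : x.1 n = y.1 n := by
  induction m, hnm using Nat.le_induction with
  | base => exact h
  | succ m hm ih =>
    apply ih
    rw [← x.2 m, ← y.2 m, h]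

/-- functions depending on finitely many stages -/
def limAlg [CompactSpace (Lim B r)] : StarSubalgebra ℂ C(Lim B r, ℂ) where
  carrier := {h | ∃ n, ∀ x y : Lim B r, x.1 n = y.1 n → h x = h y}
  mul_mem' := by
    rintro a b ⟨n, hn⟩ ⟨m, hm⟩
    refine ⟨max n m, fun x y hxy => ?_⟩
    have h1 := hn x y (lim_down B r x y n _ (le_max_left _ _) hxy)
    have h2 := hm x y (lim_down B r x y m _ (le_max_right _ _) hxy)
    simp [h1, h2]
  one_mem' := ⟨0, fun x y _ => rfl⟩
  add_mem' := by
    rintro a b ⟨n, hn⟩ ⟨m, hm⟩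
    refine ⟨max n m, fun x y hxy => ?_⟩
    have h1 := hn x y (lim_down B r x y n _ (le_max_left _ _) hxy)
    have h2 := hm x y (lim_down B r x y m _ (le_max_right _ _) hxy)
    simp [h1, h2]
  zero_mem' := ⟨0, fun x y _ => rfl⟩
  algebraMap_mem' := fun c => ⟨0, fun x y _ => rfl⟩
  star_mem' := by
    rintro a ⟨n, hn⟩
    refine ⟨n, fun x y hxy => ?_⟩
    simp [hn x y hxy]

/-- JOB: functions factoring through a finite stage are dense. -/
theorem lim_dense [CompactSpace (Lim B r)] (hs : ∀ n, Function.Surjective (prj B r n))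
    (h : C(Lim B r, ℂ)) (ε : ℝ) (hε : 0 < ε) :
    ∃ (n : ℕ) (g : C(B n, ℂ)), ∀ x, ‖h x - g (prj B r n x)‖ < ε := by
  have hsep : (limAlg B r).SeparatesPoints := by
    intro x y hxy
    have hne : ∃ n, x.1 n ≠ y.1 n := by
      by_contra hcon
      push Not at hcon
      exact hxy (Subtype.ext (funext hcon))
    obtain ⟨n, hn⟩ := hne
    obtain ⟨f, hf0, hf1, -⟩ := exists_continuous_zero_one_of_isClosed
      (isClosed_singleton (x := x.1 n)) (isClosed_singleton (x := y.1 n))
      (Set.disjoint_singleton.2 hn)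
    refine ⟨fun z => ((f (z.1 n) : ℝ) : ℂ), ⟨⟨fun z => ((f (z.1 n) : ℝ) : ℂ), ?_⟩, ?_, rfl⟩, ?_⟩
    · exact Complex.continuous_ofReal.comp (f.continuous.comp (prj B r n).continuous)
    · refine ⟨n, fun z w hzw => ?_⟩
      show ((f (z.1 n) : ℝ) : ℂ) = ((f (w.1 n) : ℝ) : ℂ)
      rw [hzw]
    · have h0 : f (x.1 n) = 0 := hf0 rfl
      have h1 : f (y.1 n) = 1 := hf1 rfl
      simp [h0, h1]
  have htop := ContinuousMap.starSubalgebra_topologicalClosure_eq_top_of_separatesPoints
    (limAlg B r) hsep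
  have hmem : h ∈ (limAlg B r).topologicalClosure := by rw [htop]; trivial
  have hcl : h ∈ closure ((limAlg B r : StarSubalgebra ℂ C(Lim B r, ℂ)) : Set C(Lim B r, ℂ)) := hmem
  obtain ⟨a, ⟨n, hn⟩, ha⟩ := Metric.mem_closure_iff.1 hcl ε hε
  have hq : Topology.IsQuotientMap (prj B r n) :=
    (prj B r n).continuous.isClosedMap.isQuotientMap (prj B r n).continuous (hs n)
  have hfac : Function.FactorsThrough a (prj B r n) := fun x y hxy => hn x y hxy
  refine ⟨n, hq.lift a hfac, fun x => ?_⟩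
  have e : hq.lift a hfac (prj B r n x) = a x := by
    have := hq.lift_comp a hfac
    exact DFunLike.congr_fun this x
  rw [e]
  calc ‖h x - a x‖ = ‖(h - a) x‖ := by simp
    _ ≤ ‖h - a‖ := ContinuousMap.norm_coe_le_norm _ x
    _ = dist h a := (dist_eq_norm h a).symm
    _ < ε := ha

end

end Pool.Agent.B595.Cont.J8
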