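import Pool.Agent.B595.Cont.J1
import Pool.Agent.B595.Cont.J2
import Pool.Agent.B595.Cont.J3
import Pool.Agent.B595.Cont.J4
import Pool.Agent.B595.Cont.J5
import Pool.Agent.B595.Cont.J6
import Pool.Agent.B595.Cont.J7
import Pool.Agent.B595.Cont.J8
import Pool.Agent.B595.Cont.J10
import Pool.Agent.B595.Cont.J11
import Pool.Agent.B595.Cont.J12

set_option autoImplicit false
open Set Topology

namespace Pool.Agent.B595.Cont

theorem uni_of_PP {X : Type} [TopologicalSpace X] [CompactSpace X] [T2Space X] [ConnectedSpace X]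
    (h : PP X) : Uni X := J1.uni_of_PP h

theorem mapo_prod {Y : Type} [TopologicalSpace Y] [CompactSpace Y] [T2Space Y]
    [ConnectedSpace Y] : MApo (Y × unitInterval × unitInterval) := J2.mapo_prod

theorem dim1_of_AP {X : Type} [TopologicalSpace X] [CompactSpace X] [T2Space X]
    (h : AP X) : Dim1 X := J3.dim1_of_AP h

theorem not_NT_of_lc {X : Type} [TopologicalSpace X] [CompactSpace X] [T2Space X]
    [ConnectedSpace X] [LocallyConnectedSpace X] (ψ : C(X, S1)) : ¬ NT ψ := J4.not_NT_of_lc ψ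

theorem NT_transfer {X Y : Type} [TopologicalSpace X] [TopologicalSpace Y] (q : C(X, Y))
    (hq : Function.Surjective q) (ψX : C(X, S1)) (ψY : C(Y, S1)) (θ : C(X, ℝ))
    (h : ∀ x, ψX x = ψY (q x) + ((θ x : ℝ) : S1)) (hY : NT ψY) : NT ψX :=
  J5.NT_transfer q hq ψX ψY θ h hY

theorem Lif_transfer {X Y : Type} [TopologicalSpace X] [TopologicalSpace Y] (q : C(X, Y))
    (ψX : C(X, S1)) (ψY : C(Y, S1)) (θ : C(X, ℝ))
    (h : ∀ x, ψX x = ψY (q x) + ((θ x : ℝ) : S1)) (hY : Lif ψY) : Lif ψX :=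
  J5.Lif_transfer q ψX ψY θ h hY

theorem PP_of_unit : PP Unit := J5.PP_of_unit

theorem PP_prod {Y : Type} [TopologicalSpace Y] (h : PP Y) : PP (Y × unitInterval) :=
  J5.PP_prod h

theorem dec {F : Type} [TopologicalSpace F] [CompactSpace F] [T2Space F]
    (v : C(F × S1, S1)) : ∃ (k : C(F, ℤ)) (η : C(F, S1)) (ζ : C(F × S1, ℝ)),
      ∀ f t, v (f, t) = k f • t + η f + ((ζ (f, t) : ℝ) : S1) := J6.dec v

section
variable (B : ℕ → Type) [∀ n, TopologicalSpace (B n)] [∀ n, CompactSpace (B n)]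
  [∀ n, T2Space (B n)] (r : ∀ n, C(B (n + 1), B n))

theorem lim_compact : CompactSpace (Lim B r) := J7.lim_compact B r

theorem lim_t2 : T2Space (Lim B r) := J7.lim_t2 B r

theorem prj_surjective [∀ n, Nonempty (B n)] (hs : ∀ n, Function.Surjective (r n)) (n : ℕ) :
    Function.Surjective (prj B r n) := J7.prj_surjective B r hs n

theorem lim_connected [∀ n, ConnectedSpace (B n)] (hs : ∀ n, Function.Surjective (r n))
    (hm : ∀ n b, IsPreconnected (r n ⁻¹' {b})) : ConnectedSpace (Lim B r) :=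
  J7.lim_connected B r hs hm

theorem lim_uni [∀ n, ConnectedSpace (B n)] (hs : ∀ n, Function.Surjective (r n))
    (hm : ∀ n b, IsPreconnected (r n ⁻¹' {b})) (hu : ∀ n, Uni (B n)) : Uni (Lim B r) :=
  J7.lim_uni B r hs hm hu

theorem lim_mapo [∀ n, ConnectedSpace (B n)] (hs : ∀ n, Function.Surjective (r n))
    (hm : ∀ n b, IsPreconnected (r n ⁻¹' {b})) (hu : ∀ n, MApo (B n)) : MApo (Lim B r) :=
  J7.lim_mapo B r hs hm hu

theorem lim_dense [CompactSpace (Lim B r)] (hs : ∀ n, Function.Surjective (prj B r n))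
    (h : C(Lim B r, ℂ)) (ε : ℝ) (hε : 0 < ε) :
    ∃ (n : ℕ) (g : C(B n, ℂ)), ∀ x, ‖h x - g (prj B r n x)‖ < ε := J8.lim_dense B r hs h ε hε

end

theorem exists_goodD {B : Type} [TopologicalSpace B] [CompactSpace B] [T2Space B]
    [SecondCountableTopology B] (g : C(B, ℂ)) : ∃ D : ℕ → C(B × S1, ℝ), GoodD g D :=
  J10.exists_goodD g

section
variable {B : Type} [TopologicalSpace B] [CompactSpace B] [T2Space B]
  (g : C(B, ℂ)) (D : ℕ → C(B × S1, ℝ))

theorem isCompact_Bl : IsCompact (Bl g D) := J11.isCompact_Bl g D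

theorem exists_mem_Bl (b : B) : ∃ p ∈ Bl g D, p.1 = b := J11.exists_mem_Bl g D b

theorem fiber_Bl (b : B) : IsPreconnected {p : Bl g D | p.1.1 = b} := J11.fiber_Bl g D b

theorem exists_point_Bl (b : B) (hb : g b = 0) (j : ℕ) (t : S1) :
    ∃ p ∈ Bl g D, p.1 = b ∧ p.2.1 = (1 / 2 : ℝ) ^ (j + 1) ∧ p.2.2 (j + 1) = t :=
  J11.exists_point_Bl g D b hb j t

end

section
variable {B : Type} [TopologicalSpace B] [CompactSpace B] [T2Space B]
  [SecondCountableTopology B] (g : C(B, ℂ)) (D : ℕ → C(B × S1, ℝ))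

theorem tel (ψ : C(Bl g D, S1)) :
    ∃ (v : C({b : B // g b = 0} × S1, S1)) (θ : C({e : Bl g D // g e.1.1 = 0}, ℝ)),
      ∀ e : {e : Bl g D // g e.1.1 = 0},
        ψ e.1 = v (⟨e.1.1.1, e.2⟩, e.1.1.2.2 0) + ((θ e : ℝ) : S1) := J12.tel g D ψ

end

end Pool.Agent.B595.Cont
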