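import Pool.Agent.B595.Cont.Wall

set_option autoImplicit false
open Set Topology

namespace Pool.Agent.B595.Cont

section step
variable {B : Type} [TopologicalSpace B] [CompactSpace B] [T2Space B]
  (g : C(B, ℂ)) (D : ℕ → C(B × S1, ℝ))

omit [CompactSpace B] [T2Space B] in
/-- away from the zeros the blow-down map is injective -/
lemma Bl_inj {p q : B × ℝ × (ℕ → S1)} (hp : p ∈ Bl g D) (hq : q ∈ Bl g D) (h : p.1 = q.1)
    (hb : g p.1 ≠ 0) : p = q := by
  have key : ∀ p ∈ Bl g D, g p.1 ≠ 0 → p.2.1 = 1 ∧ (∀ j, p.2.2 j = p.2.2 0) := by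
    rintro p ⟨h1, h2, h3, h4, h5⟩ hb
    have ha : p.2.1 = 1 := by
      rcases mul_eq_zero.mp h3 with h | h
      · have : 1 - p.2.1 = 0 := by exact_mod_cast h
        linarith
      · exact absurd h hb
    refine ⟨ha, ?_⟩
    intro j
    induction j with
    | zero => rfl
    | succ j ih =>
      rw [← ih]
      have := h5 j
      rw [ha, J11.sg_one] at this
      simp only [zero_mul, AddCircle.coe_zero, add_zero] at this
      exact this.symm
  obtain ⟨k1, k2⟩ := key p hp hb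
  obtain ⟨l1, l2⟩ := key q hq (by rwa [← h])
  have hn : (‖g p.1‖ : ℂ) ≠ 0 := by exact_mod_cast (norm_ne_zero_iff.mpr hb)
  have h0 : p.2.2 0 = q.2.2 0 := by
    apply AddCircle.injective_toCircle (T := 1) one_ne_zero
    apply Subtype.ext
    have k3 := hp.2.2.2.1
    have l3 := hq.2.2.2.1
    rw [← h] at l3
    exact mul_left_cancel₀ hn (k3.symm.trans l3)
  apply Prod.ext
  · exact h
  · apply Prod.ext
    · exact k1.trans l1.symm
    · funext j
      rw [k2 j, l2 j, h0]

/-- the blow-down map -/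
def bd : C(Bl g D, B) := ⟨fun e => e.1.1, continuous_fst.comp continuous_subtype_val⟩

lemma bd_surj : Function.Surjective (bd g D) := by
  intro b
  obtain ⟨p, hp, h⟩ := exists_mem_Bl g D b
  exact ⟨⟨p, hp⟩, h⟩

lemma bd_quot : IsQuotientMap (bd g D) :=
  (bd g D).continuous.isClosedMap.isQuotientMap (bd g D).continuous (bd_surj g D)

variable [SecondCountableTopology B]

theorem PP_Bl (hD : GoodD g D) (h : PP B) : PP (Bl g D) := by
  classical
  intro ψ
  obtain ⟨v, θ, hv⟩ := tel g D ψ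
  have : CompactSpace {b : B // g b = 0} :=
    isCompact_iff_compactSpace.1 (isClosed_eq g.continuous continuous_const).isCompact
  obtain ⟨k, η, ζ, hk⟩ := dec v
  let Θ : C(EE g D, ℝ) := ⟨fun e => θ e + ζ (bp e, e.1.1.2.2 0), by
    refine θ.continuous.add (ζ.continuous.comp (continuous_bp.prodMk ?_))
    fun_prop⟩
  have hΘ : ∀ e : EE g D, ψ e.1 = k (bp e) • (e.1.1.2.2 0) + η (bp e) + ((Θ e : ℝ) : S1) := by
    intro e
    rw [hv e, show (⟨e.1.1.1, e.2⟩ : {b : B // g b = 0}) = bp e from rfl, hk]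
    simp only [Θ, ContinuousMap.coe_mk]
    rw [AddCircle.coe_add]
    abel
  by_cases hz : ∃ f, k f ≠ 0
  · obtain ⟨f0, hf0⟩ := hz
    exact Or.inr (NT_of_deg hD ψ k η Θ hΘ f0 hf0)
  · push Not at hz
    have hce : IsClosedEmbedding (Subtype.val : EE g D → Bl g D) := by
      refine IsClosed.isClosedEmbedding_subtypeVal ?_
      exact isClosed_eq (g.continuous.comp (continuous_fst.comp continuous_subtype_val))
        continuous_const
    obtain ⟨Θ', hΘ'⟩ := Θ.exists_extension hce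
    have hΘ'' : ∀ e : EE g D, Θ' e.1 = Θ e := fun e => DFunLike.congr_fun hΘ' e
    let ψ1 : C(Bl g D, S1) := ⟨fun e => ψ e - ((Θ' e : ℝ) : S1), by
      refine ψ.continuous.sub ?_
      exact (AddCircle.continuous_mk' 1).comp Θ'.continuous⟩
    have hf : Function.FactorsThrough ψ1 (bd g D) := by
      intro e e' hee
      have hee' : e.1.1 = e'.1.1 := hee
      by_cases hg : g e.1.1 = 0
      · have hg' : g e'.1.1 = 0 := by rw [← hee']; exact hg
        have e1 := hΘ ⟨e, hg⟩
        have e2 := hΘ ⟨e', hg'⟩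
        have hb : bp (⟨e, hg⟩ : EE g D) = bp (⟨e', hg'⟩ : EE g D) := Subtype.ext hee'
        show ψ e - ((Θ' e : ℝ) : S1) = ψ e' - ((Θ' e' : ℝ) : S1)
        have f1 := hΘ'' ⟨e, hg⟩
        have f2 := hΘ'' ⟨e', hg'⟩
        simp only at f1 f2 e1 e2
        rw [f1, f2, e1, e2, hz, hz, hb]
        simp
      · have : e = e' := Subtype.ext (Bl_inj g D e.2 e'.2 hee' hg)
        rw [this]
    let ψ0 : C(B, S1) := (bd_quot g D).lift ψ1 hf
    have hψ0 : ∀ e, ψ0 (bd g D e) = ψ1 e := fun e =>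
      DFunLike.congr_fun ((bd_quot g D).lift_comp ψ1 hf) e
    have hrel : ∀ e, ψ e = ψ0 (bd g D e) + ((Θ' e : ℝ) : S1) := by
      intro e
      rw [hψ0]
      simp [ψ1]
    rcases h ψ0 with h1 | h1
    · exact Or.inl (Lif_transfer (bd g D) ψ ψ0 Θ' hrel h1)
    · exact Or.inr (NT_transfer (bd g D) (bd_surj g D) ψ ψ0 Θ' hrel h1)

omit [SecondCountableTopology B] in
/-- the angle class of the blow-up along all of `B` is not tame -/
theorem NT_angle [Nonempty B] (hg : ∀ b, g b = 0) (hD : GoodD g D) :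
    NT (⟨fun e => e.1.2.2 0, by fun_prop⟩ : C(Bl g D, S1)) := by
  obtain ⟨b⟩ := ‹Nonempty B›
  refine NT_of_deg hD _ (ContinuousMap.const _ 1) (ContinuousMap.const _ 0)
    (ContinuousMap.const _ 0) (fun e => ?_) ⟨b, hg b⟩ (by show (1 : ℤ) ≠ 0; norm_num)
  show e.1.1.2.2 0 = (1 : ℤ) • e.1.1.2.2 0 + (0 : S1) + ((0 : ℝ) : S1)
  simp

end step

end Pool.Agent.B595.Cont
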