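import Pool.Agent.B595.Cont.Skel

set_option autoImplicit false
open Set Topology

namespace Pool.Agent.B595.Cont

lemma continuous_smul_S1 : Continuous (fun p : ℤ × S1 => p.1 • p.2) :=
  continuous_prod_of_discrete_left.mpr continuous_zsmul

lemma sg_nonneg (j : ℕ) (a : ℝ) : 0 ≤ sg j a := le_max_left _ _
lemma sg_le_one (j : ℕ) (a : ℝ) : sg j a ≤ 1 := max_le zero_le_one (min_le_left _ _)
lemma continuous_sg (j : ℕ) : Continuous (sg j) := by unfold sg; fun_prop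

lemma sg_eq_one {j : ℕ} {a : ℝ} (h : a ≤ (1 / 2 : ℝ) ^ (j + 1)) : sg j a = 1 := by
  have : (2 : ℝ) ^ (j + 1) * a ≤ 1 := by
    calc (2 : ℝ) ^ (j + 1) * a ≤ 2 ^ (j + 1) * (1 / 2 : ℝ) ^ (j + 1) := by gcongr
      _ = 1 := by rw [← mul_pow]; norm_num
  unfold sg
  rw [min_eq_left (by linarith), max_eq_right zero_le_one]

lemma sg_eq_zero {j : ℕ} {a : ℝ} (h : (1 / 2 : ℝ) ^ j ≤ a) : sg j a = 0 := by
  have : (2 : ℝ) ≤ (2 : ℝ) ^ (j + 1) * a := by
    calc (2 : ℝ) = 2 ^ (j + 1) * (1 / 2 : ℝ) ^ j := by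
          rw [pow_succ, mul_comm ((2 : ℝ) ^ j) 2, mul_assoc, ← mul_pow]; norm_num
      _ ≤ (2 : ℝ) ^ (j + 1) * a := by gcongr
  unfold sg
  exact max_eq_left (le_trans (min_le_right _ _) (by linarith))

/-- total displacement below level `j` -/
noncomputable def XX {B : Type} [TopologicalSpace B] (D : ℕ → C(B × S1, ℝ)) (j : ℕ)
    (p : B × ℝ × (ℕ → S1)) : ℝ :=
  ∑ i ∈ Finset.range j, sg i p.2.1 * D i (p.1, p.2.2 (i + 1))

lemma continuous_XX {B : Type} [TopologicalSpace B] (D : ℕ → C(B × S1, ℝ)) (j : ℕ) :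
    Continuous (XX D j) := by
  unfold XX
  refine continuous_finsetSum _ fun i _ => ?_
  refine ((continuous_sg i).comp (by fun_prop)).mul ((D i).continuous.comp ?_)
  fun_prop

lemma XX_spec {B : Type} [TopologicalSpace B] {g : C(B, ℂ)} {D : ℕ → C(B × S1, ℝ)}
    {p : B × ℝ × (ℕ → S1)} (hp : p ∈ Bl g D) (j : ℕ) :
    p.2.2 0 = p.2.2 j + ((XX D j p : ℝ) : S1) := by
  induction j with
  | zero => simp [XX]
  | succ j ih =>
    rw [ih, hp.2.2.2.2 j, XX, XX, Finset.sum_range_succ, AddCircle.coe_add, add_assoc, add_comm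
      ((((sg j p.2.1 * D j (p.1, p.2.2 (j + 1)) : ℝ)) : S1))]

/-- sum of the bounds -/
noncomputable def SS (j : ℕ) : ℝ := ∑ i ∈ Finset.range j, (4 : ℝ) ^ (i + 1)

lemma SS_eq (j : ℕ) : 3 * SS j + 4 = 4 ^ (j + 1) := by
  induction j with
  | zero => simp [SS]
  | succ j ih =>
    have : SS (j + 1) = SS j + 4 ^ (j + 1) := by simp [SS, Finset.sum_range_succ]
    rw [this, pow_succ 4 (j + 1)]
    linarith

lemma XX_le {B : Type} [TopologicalSpace B] {g : C(B, ℂ)} {D : ℕ → C(B × S1, ℝ)}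
    (hD : GoodD g D) (j : ℕ) (p : B × ℝ × (ℕ → S1)) : |XX D j p| ≤ SS j := by
  unfold XX SS
  refine (Finset.abs_sum_le_sum_abs _ _).trans (Finset.sum_le_sum fun i _ => ?_)
  rw [abs_mul, abs_of_nonneg (sg_nonneg _ _)]
  calc sg i p.2.1 * |D i (p.1, p.2.2 (i + 1))| ≤ 1 * |D i (p.1, p.2.2 (i + 1))| := by
        gcongr; exact sg_le_one _ _
    _ ≤ 4 ^ (i + 1) := by rw [one_mul]; exact hD.bd _ _

lemma growth (K : ℝ) : ∃ J : ℕ, ∀ j, J ≤ j → 2 * SS j + K < 4 ^ (j + 1) := by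
  obtain ⟨J, hJ⟩ := exists_nat_gt (3 * K)
  refine ⟨J, fun j hj => ?_⟩
  have h1 := SS_eq j
  have h2 : ((j + 1 : ℕ) : ℝ) < 4 ^ (j + 1) := by exact_mod_cast Nat.lt_pow_self (by norm_num)
  have h3 : (J : ℝ) ≤ j := by exact_mod_cast hj
  push_cast at h2
  linarith

lemma int_coe_S1 (n : ℤ) : ((n : ℝ) : S1) = 0 := by
  rw [AddCircle.coe_eq_zero_iff]
  exact ⟨n, by simp⟩

/-- the two walls -/
lemma walls {B : Type} [TopologicalSpace B] {g : C(B, ℂ)} {D : ℕ → C(B × S1, ℝ)}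
    (u : C({b : B // g b = 0} × S1, S1)) (j : ℕ)
    (hw : ∀ (f : {b : B // g b = 0}) (t : S1),
      (u (f, t) = 0 → D j (f.1, t) = 4 ^ (j + 1)) ∧
      (u (f, t) = (((1 / 2 : ℝ)) : S1) → D j (f.1, t) = -4 ^ (j + 1)))
    (k0 : ℤ) (hk : k0 ≠ 0) (R : ℝ) :
    ∃ Wp Wm : ℝ, R < Wp ∧ Wm < -R ∧ Wp ≤ R + 2 ∧ -(R + 2) ≤ Wm ∧
      (∀ (f : {b : B // g b = 0}) (t : S1), u (f, t) = ((Wp : ℝ) : S1) →
        0 ≤ (k0 : ℝ) * D j (f.1, t)) ∧
      (∀ (f : {b : B // g b = 0}) (t : S1), u (f, t) = ((Wm : ℝ) : S1) →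
        (k0 : ℝ) * D j (f.1, t) ≤ 0) := by
  obtain ⟨M, hM⟩ : ∃ M : ℤ, M = ⌊R⌋ + 1 := ⟨_, rfl⟩
  have hM1 : R < M := by rw [hM]; push_cast; exact Int.lt_floor_add_one R
  have hM2 : (M : ℝ) ≤ R + 1 := by rw [hM]; push_cast; linarith [Int.floor_le R]
  have e0 : (((M : ℝ)) : S1) = 0 := int_coe_S1 M
  have e0' : (((-(M : ℝ)) : ℝ) : S1) = 0 := by
    have := int_coe_S1 (-M); push_cast at this; exact_mod_cast this
  have e1 : ((((M : ℝ) + 1 / 2 : ℝ)) : S1) = (((1 / 2 : ℝ)) : S1) := by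
    rw [AddCircle.coe_add, e0, zero_add]
  have e2 : (((-(M : ℝ) - 1 / 2 : ℝ)) : S1) = (((1 / 2 : ℝ)) : S1) := by
    have : (-(M : ℝ) - 1 / 2 : ℝ) = ((-M - 1 : ℤ) : ℝ) + 1 / 2 := by push_cast; ring
    rw [this, AddCircle.coe_add, int_coe_S1, zero_add]
  have p4 : (0 : ℝ) < 4 ^ (j + 1) := by positivity
  rcases lt_or_gt_of_ne hk with hneg | hpos
  · have hk' : (k0 : ℝ) < 0 := by exact_mod_cast hneg
    refine ⟨M + 1 / 2, -M, by linarith, by linarith, by linarith, by linarith, ?_, ?_⟩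
    · intro f t h
      rw [e1] at h
      rw [(hw f t).2 h]
      nlinarith
    · intro f t h
      rw [e0'] at h
      rw [(hw f t).1 h]
      nlinarith
  · have hk' : (0 : ℝ) < k0 := by exact_mod_cast hpos
    refine ⟨M, -M - 1 / 2, by linarith, by linarith, by linarith, by linarith, ?_, ?_⟩
    · intro f t h
      rw [e0] at h
      rw [(hw f t).1 h]
      nlinarith
    · intro f t h
      rw [e2] at h
      rw [(hw f t).2 h]
      nlinarith


section core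
variable {B : Type} [TopologicalSpace B] [CompactSpace B] [T2Space B]
  {g : C(B, ℂ)} {D : ℕ → C(B × S1, ℝ)}

/-- the part of the blow-up over the zeros of `g` -/
abbrev EE (g : C(B, ℂ)) (D : ℕ → C(B × S1, ℝ)) : Type := {e : Bl g D // g e.1.1 = 0}

/-- the base point in `F` of a point of `EE` -/
def bp (e : EE g D) : {b : B // g b = 0} := ⟨e.1.1.1, e.2⟩

omit [CompactSpace B] [T2Space B] in
lemma continuous_bp : Continuous (bp (g := g) (D := D)) := by
  unfold bp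
  fun_prop

omit [CompactSpace B] [T2Space B] in
/-- Core of the wall argument. -/
lemma core (hD : GoodD g D) (ψ : C(Bl g D, S1)) (k : C({b : B // g b = 0}, ℤ))
    (η : C({b : B // g b = 0}, S1)) (Θ : C(EE g D, ℝ))
    (h : ∀ e : EE g D, ψ e.1 = k (bp e) • (e.1.1.2.2 0) + η (bp e) + ((Θ e : ℝ) : S1))
    (k0 : ℤ) (hk : k0 ≠ 0) (C R0 : ℝ) (hC : ∀ e, |Θ e| ≤ C)
    (u : C({b : B // g b = 0} × S1, S1)) (hu : ∀ f t, u (f, t) = k f • t + η f)
    (j : ℕ)
    (hw : ∀ (f : {b : B // g b = 0}) (t : S1),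
      (u (f, t) = 0 → D j (f.1, t) = 4 ^ (j + 1)) ∧
      (u (f, t) = (((1 / 2 : ℝ)) : S1) → D j (f.1, t) = -4 ^ (j + 1)))
    (hj : 2 * SS j + (2 * R0 + 2 * C + 2) < 4 ^ (j + 1))
    (c : Set (Bl g D × ℝ)) (hc : IsPreconnected c) (hcov : c ⊆ Cov ψ)
    (hR0 : ∀ p ∈ c, |p.2| ≤ R0)
    (es : EE g D) (hes : k (bp es) = k0) (hesa : es.1.1.2.1 = (1 / 2 : ℝ) ^ (j + 1))
    (hesu : u (bp es, es.1.1.2.2 (j + 1)) = 0) (x : ℝ) (hx : (es.1, x) ∈ c) :
    ∀ p ∈ c, p.1.1.2.1 ≤ (1 / 2 : ℝ) ^ j := by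
  have hSS : 0 ≤ SS j := by unfold SS; positivity
  have hC0 : 0 ≤ C := (abs_nonneg _).trans (hC es)
  have hR00 : 0 ≤ R0 := (abs_nonneg _).trans (hR0 _ hx)
  set K : ℝ := |(k0 : ℝ)| with hK
  have hK1 : 1 ≤ K := by
    rw [hK]
    have : (1 : ℤ) ≤ |k0| := Int.one_le_abs hk
    exact_mod_cast this
  set R : ℝ := R0 + K * SS j + C with hR
  obtain ⟨Wp, Wm, hW1, hW2, hW3, hW4, hW5, hW6⟩ := walls u j hw k0 hk R
  -- the level function
  let om : EE g D × ℝ → ℝ := fun q => q.2 - k0 * XX D (j + 1) q.1.1.1 - Θ q.1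
  have hom : Continuous om := by
    refine (continuous_snd.sub (continuous_const.mul ((continuous_XX D (j + 1)).comp ?_))).sub
      (Θ.continuous.comp continuous_fst)
    exact continuous_subtype_val.comp (continuous_subtype_val.comp continuous_fst)
  let xj : EE g D → ℝ := fun e => sg j e.1.1.2.1 * D j (e.1.1.1, e.1.1.2.2 (j + 1))
  -- bound
  have hbd : ∀ q : EE g D × ℝ, (q.1.1, q.2) ∈ c → |om q + k0 * xj q.1| ≤ R := by
    intro q hq
    have e1 : om q + k0 * xj q.1 = q.2 - k0 * XX D j q.1.1.1 - Θ q.1 := by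
      simp only [om, xj, XX, Finset.sum_range_succ]
      ring
    rw [e1]
    have a1 : |q.2| ≤ R0 := hR0 _ hq
    have a2 : |(k0 : ℝ) * XX D j q.1.1.1| ≤ K * SS j := by
      rw [abs_mul]
      exact mul_le_mul_of_nonneg_left (XX_le hD j _) (abs_nonneg _)
    have a3 := hC q.1
    calc |q.2 - k0 * XX D j q.1.1.1 - Θ q.1|
        ≤ |q.2 - k0 * XX D j q.1.1.1| + |Θ q.1| := abs_sub _ _
      _ ≤ |q.2| + |k0 * XX D j q.1.1.1| + |Θ q.1| := by gcongr; exact abs_sub _ _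
      _ ≤ R := by rw [hR]; linarith
  -- levels
  have hlev : ∀ q : EE g D × ℝ, (q.1.1, q.2) ∈ c → k (bp q.1) = k0 →
      u (bp q.1, q.1.1.1.2.2 (j + 1)) = ((om q : ℝ) : S1) := by
    intro q hq hkq
    have c1 : ψ q.1.1 = ((q.2 : ℝ) : S1) := hcov hq
    rw [h q.1, hkq, XX_spec q.1.1.2 (j + 1)] at c1
    rw [hu, hkq]
    have c2 : ((om q : ℝ) : S1) = ((q.2 : ℝ) : S1) - k0 • ((XX D (j + 1) q.1.1.1 : ℝ) : S1)
        - ((Θ q.1 : ℝ) : S1) := by
      simp only [om]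
      rw [AddCircle.coe_sub, AddCircle.coe_sub]
      congr 2
      rw [← AddCircle.coe_zsmul, zsmul_eq_mul]
    rw [c2, ← c1, smul_add]
    abel
  -- closed embedding
  have hcl : IsClosedEmbedding (fun q : EE g D × ℝ => (q.1.1, q.2)) := by
    have : IsClosedEmbedding (Subtype.val : EE g D → Bl g D) := by
      refine IsClosed.isClosedEmbedding_subtypeVal ?_
      exact isClosed_eq (g.continuous.comp (continuous_fst.comp continuous_subtype_val))
        continuous_const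
    exact this.prodMap IsClosedEmbedding.id
  let OUT : Set (Bl g D × ℝ) := (fun q : EE g D × ℝ => (q.1.1, q.2)) ''
    {q | k (bp q.1) = k0 ∧ q.1.1.1.2.1 ≤ (1 / 2 : ℝ) ^ j ∧ (Wp ≤ om q ∨ om q ≤ Wm)}
  let INN : Set (Bl g D × ℝ) := {p | (1 / 2 : ℝ) ^ j ≤ p.1.1.2.1} ∪
    (fun q : EE g D × ℝ => (q.1.1, q.2)) ''
      {q | k (bp q.1) ≠ k0 ∨ (Wm ≤ om q ∧ om q ≤ Wp)}
  have ckb : Continuous (fun q : EE g D × ℝ => k (bp q.1)) :=
    k.continuous.comp (continuous_bp.comp continuous_fst)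
  have ca : Continuous (fun q : EE g D × ℝ => q.1.1.1.2.1) := by fun_prop
  have hOUT : IsClosed OUT := by
    refine hcl.isClosedMap _ ?_
    refine IsClosed.inter (isClosed_singleton.preimage ckb) (IsClosed.inter
      (isClosed_le ca continuous_const) ?_)
    exact (isClosed_le continuous_const hom).union (isClosed_le hom continuous_const)
  have hINN : IsClosed INN := by
    refine IsClosed.union ?_ (hcl.isClosedMap _ ?_)
    · exact isClosed_le continuous_const (by fun_prop)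
    · refine IsClosed.union ?_ ?_
      · exact (isClosed_discrete {m : ℤ | m ≠ k0}).preimage ckb
      · exact (isClosed_le continuous_const hom).inter (isClosed_le hom continuous_const)
  -- cover
  have hcover : c ⊆ OUT ∪ INN := by
    intro p hp
    by_cases ha : (1 / 2 : ℝ) ^ j ≤ p.1.1.2.1
    · exact Or.inr (Or.inl ha)
    · push Not at ha
      have hlt : p.1.1.2.1 < 1 := lt_of_lt_of_le ha (pow_le_one₀ (by norm_num) (by norm_num))
      have hg : g p.1.1.1 = 0 := by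
        have := p.1.2.2.2.1
        rcases mul_eq_zero.1 this with h1 | h1
        · exfalso
          have : (1 - p.1.1.2.1 : ℝ) = 0 := by exact_mod_cast h1
          linarith
        · exact h1
      let q : EE g D × ℝ := (⟨p.1, hg⟩, p.2)
      by_cases hkq : k (bp q.1) = k0
      · by_cases h1 : Wp ≤ om q
        · exact Or.inl ⟨q, ⟨hkq, ha.le, Or.inl h1⟩, rfl⟩
        · by_cases h2 : om q ≤ Wm
          · exact Or.inl ⟨q, ⟨hkq, ha.le, Or.inr h2⟩, rfl⟩
          · exact Or.inr (Or.inr ⟨q, Or.inr ⟨(not_le.1 h2).le, (not_le.1 h1).le⟩, rfl⟩)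
      · exact Or.inr (Or.inr ⟨q, Or.inl hkq, rfl⟩)
  -- disjointness
  have hdisj : ∀ p ∈ c, p ∈ OUT → p ∈ INN → False := by
    rintro p hp ⟨q, ⟨hq1, hq2, hq3⟩, rfl⟩ hin
    have hb := abs_le.1 (hbd q hp)
    have hl := hlev q hp hq1
    have hsn : 0 ≤ sg j q.1.1.1.2.1 := sg_nonneg _ _
    have key : om q ≠ Wp ∧ om q ≠ Wm := by
      constructor
      · intro he
        rw [he] at hl
        have := hW5 _ _ hl
        have h2 : 0 ≤ (k0 : ℝ) * xj q.1 := by
          have e : (k0 : ℝ) * xj q.1 = sg j q.1.1.1.2.1 *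
              (k0 * D j (q.1.1.1.1, q.1.1.1.2.2 (j + 1))) := by simp only [xj]; ring
          rw [e]; exact mul_nonneg hsn this
        linarith [hb.2]
      · intro he
        rw [he] at hl
        have := hW6 _ _ hl
        have h2 : (k0 : ℝ) * xj q.1 ≤ 0 := by
          have e : (k0 : ℝ) * xj q.1 = sg j q.1.1.1.2.1 *
              (k0 * D j (q.1.1.1.1, q.1.1.1.2.2 (j + 1))) := by simp only [xj]; ring
          rw [e]; exact mul_nonpos_of_nonneg_of_nonpos hsn this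
        linarith [hb.1]
    rcases hin with hin | ⟨q', hq', hqq⟩
    · have hin' : (1 / 2 : ℝ) ^ j ≤ q.1.1.1.2.1 := hin
      have hx0 : xj q.1 = 0 := by simp only [xj]; rw [sg_eq_zero hin', zero_mul]
      rw [hx0, mul_zero, add_zero] at hb
      rcases hq3 with h3 | h3
      · linarith [hb.2]
      · linarith [hb.1]
    · have hqe : q' = q := hcl.injective hqq
      subst hqe
      rcases hq' with h4 | h4
      · exact h4 hq1
      · rcases hq3 with h3 | h3
        · exact key.1 (le_antisymm h4.2 h3)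
        · exact key.2 (le_antisymm h3 h4.1)
  -- the special point is outside
  have hesOUT : (es.1, x) ∈ OUT := by
    refine ⟨(es, x), ⟨hes, ?_, ?_⟩, rfl⟩
    · show es.1.1.2.1 ≤ _
      rw [hesa]
      exact pow_le_pow_of_le_one (by norm_num) (by norm_num) (Nat.le_succ j)
    · have hb := hbd (es, x) hx
      have hDj : D j (es.1.1.1, es.1.1.2.2 (j + 1)) = 4 ^ (j + 1) := (hw (bp es) _).1 hesu
      have hxj : xj es = 4 ^ (j + 1) := by
        simp only [xj]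
        rw [hDj, hesa, sg_eq_one le_rfl, one_mul]
      have hb' : |om (es, x) + k0 * 4 ^ (j + 1)| ≤ R := by
        have := hb
        rw [show xj ((es, x) : EE g D × ℝ).1 = 4 ^ (j + 1) from hxj] at this
        exact this
      have h5 : K * 4 ^ (j + 1) - |om (es, x)| ≤ R := by
        have e : K * 4 ^ (j + 1) = |(k0 : ℝ) * 4 ^ (j + 1)| := by
          rw [abs_mul, abs_of_nonneg (by positivity : (0 : ℝ) ≤ 4 ^ (j + 1))]
        rw [e]
        have := abs_sub_abs_le_abs_sub ((k0 : ℝ) * 4 ^ (j + 1)) (-om (es, x))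
        rw [abs_neg] at this
        refine this.trans ?_
        rw [sub_neg_eq_add, add_comm]
        exact hb'
      have h6 : R + 2 < |om (es, x)| := by
        have : K * (2 * SS j + (2 * R0 + 2 * C + 2)) ≤ K * 4 ^ (j + 1) :=
          mul_le_mul_of_nonneg_left hj.le (by linarith)
        have h7 : 2 * R0 + 2 * C + 2 ≤ K * (2 * R0 + 2 * C + 2) :=
          le_mul_of_one_le_left (by linarith) hK1
        have h8 : K * (2 * SS j + (2 * R0 + 2 * C + 2)) < K * 4 ^ (j + 1) :=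
          mul_lt_mul_of_pos_left hj (by linarith)
        nlinarith
      show Wp ≤ om (es, x) ∨ om (es, x) ≤ Wm
      rcases lt_abs.1 h6 with h9 | h9
      · left; linarith
      · right; linarith
  -- conclusion
  intro p hp
  by_contra hcon
  push Not at hcon
  have hpI : p ∈ INN := Or.inl hcon.le
  obtain ⟨q, hq1, hq2, hq3⟩ := (isPreconnected_closed_iff.1 hc) OUT INN hOUT hINN hcover
    ⟨_, hx, hesOUT⟩ ⟨p, hp, hpI⟩
  exact hdisj q hq1 hq2 hq3

end core


section deg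
variable {B : Type} [TopologicalSpace B] [CompactSpace B] [T2Space B]
  {g : C(B, ℂ)} {D : ℕ → C(B × S1, ℝ)}

instance : CompactSpace (Bl g D) := isCompact_iff_compactSpace.1 (isCompact_Bl g D)

instance : CompactSpace (EE g D) := by
  refine isCompact_iff_compactSpace.1 ?_
  refine IsClosed.isCompact ?_
  exact isClosed_eq (g.continuous.comp (continuous_fst.comp continuous_subtype_val))
    continuous_const

/-- a real multiple solves the level equation -/
lemma exists_level (k0 : ℤ) (hk : k0 ≠ 0) (y : S1) : ∃ t : S1, k0 • t + y = 0 := by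
  obtain ⟨r, rfl⟩ := QuotientAddGroup.mk_surjective y
  refine ⟨((-r / k0 : ℝ) : S1), ?_⟩
  have h : (k0 : ℝ) ≠ 0 := by exact_mod_cast hk
  change k0 • ((-r / k0 : ℝ) : S1) + ((r : ℝ) : S1) = 0
  rw [← AddCircle.coe_zsmul, ← AddCircle.coe_add, zsmul_eq_mul, mul_div_cancel₀ _ h]
  simp

/-- The wall lemma. -/
theorem NT_of_deg (hD : GoodD g D) (ψ : C(Bl g D, S1)) (k : C({b : B // g b = 0}, ℤ))
    (η : C({b : B // g b = 0}, S1)) (Θ : C(EE g D, ℝ))
    (h : ∀ e : EE g D, ψ e.1 = k (bp e) • (e.1.1.2.2 0) + η (bp e) + ((Θ e : ℝ) : S1))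
    (f0 : {b : B // g b = 0}) (hk : k f0 ≠ 0) : NT ψ := by
  classical
  -- the level function u
  let u : C({b : B // g b = 0} × S1, S1) :=
    ⟨fun q => k q.1 • q.2 + η q.1, by
      refine Continuous.add ?_ (η.continuous.comp continuous_fst)
      exact continuous_smul_S1.comp ((k.continuous.comp continuous_fst).prodMk continuous_snd)⟩
  have hu : ∀ f t, u (f, t) = k f • t + η f := fun f t => rfl
  obtain ⟨C, hC⟩ : ∃ C, ∀ e, |Θ e| ≤ C := by
    obtain ⟨C, hC⟩ := (isCompact_range Θ.continuous).isBounded.exists_norm_le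
    exact ⟨C, fun e => hC _ ⟨e, rfl⟩⟩
  obtain ⟨t0, ht0⟩ := exists_level (k f0) hk (η f0)
  -- one set
  have one : ∀ c : Set (Bl g D × ℝ), IsCompact c → IsPreconnected c → c ⊆ Cov ψ →
      ∃ J : ℕ, ∀ j, J ≤ j →
        (∀ (f : {b : B // g b = 0}) (t : S1),
          (u (f, t) = 0 → D j (f.1, t) = 4 ^ (j + 1)) ∧
          (u (f, t) = (((1 / 2 : ℝ)) : S1) → D j (f.1, t) = -4 ^ (j + 1))) →
        ∀ e : Bl g D, e.1.1 = f0.1 → e.1.2.1 = (1 / 2 : ℝ) ^ (j + 1) → e.1.2.2 (j + 1) = t0 →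
          e ∉ Prod.fst '' c := by
    intro c hc1 hc2 hc3
    obtain ⟨R0, hR0⟩ : ∃ R0, ∀ p ∈ c, |p.2| ≤ R0 := by
      obtain ⟨R0, hR0⟩ := (hc1.image continuous_snd).isBounded.exists_norm_le
      exact ⟨R0, fun p hp => hR0 _ ⟨p, hp, rfl⟩⟩
    obtain ⟨J1, hJ1⟩ := growth (2 * R0 + 2 * C + 2)
    by_cases hex : ∃ p ∈ c, 0 < p.1.1.2.1
    · obtain ⟨p, hp, hp0⟩ := hex
      obtain ⟨J2, hJ2⟩ := exists_pow_lt_of_lt_one hp0 (by norm_num : (1 / 2 : ℝ) < 1)
      refine ⟨max J1 J2, fun j hj hw e he1 he2 he3 hmem => ?_⟩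
      obtain ⟨⟨e', x⟩, hx, rfl⟩ := hmem
      have hge : g e'.1.1 = 0 := by
        have := he1; simp only at this; rw [this]; exact f0.2
      let es : EE g D := ⟨e', hge⟩
      have hbp : bp es = f0 := Subtype.ext he1
      have hall := core hD ψ k η Θ h (k f0) hk C R0 hC u hu j hw
        (hJ1 j (le_trans (le_max_left _ _) hj)) c hc2 hc3 hR0 es (by rw [hbp]) he2
        (by rw [hbp, hu]; show k f0 • e'.1.2.2 (j + 1) + η f0 = 0; rw [he3, ht0]) x hx
      have h1 := hall p hp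
      have h2 : (1 / 2 : ℝ) ^ j ≤ (1 / 2 : ℝ) ^ J2 :=
        pow_le_pow_of_le_one (by norm_num) (by norm_num) (le_trans (le_max_right _ _) hj)
      linarith
    · push Not at hex
      refine ⟨0, fun j _ _ e he1 he2 he3 hmem => ?_⟩
      obtain ⟨⟨e', x⟩, hx, rfl⟩ := hmem
      have h1 := hex _ hx
      have h2 : (0 : ℝ) < (1 / 2 : ℝ) ^ (j + 1) := by positivity
      have h3 : e'.1.2.1 = (1 / 2 : ℝ) ^ (j + 1) := he2
      simp only at h1
      linarith
  intro c c' hc1 hc2 hc3 hc1' hc2' hc3' huniv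
  obtain ⟨J, hJ⟩ := one c hc1 hc2 hc3
  obtain ⟨J', hJ'⟩ := one c' hc1' hc2' hc3'
  obtain ⟨j, hj, hw⟩ := hD.wall u (max J J')
  obtain ⟨p, hp, hp1, hp2, hp3⟩ := exists_point_Bl g D f0.1 f0.2 j t0
  have hmem : (⟨p, hp⟩ : Bl g D) ∈ Prod.fst '' c ∪ Prod.fst '' c' := by rw [huniv]; trivial
  rcases hmem with hm | hm
  · exact hJ j (le_trans (le_max_left _ _) hj) hw ⟨p, hp⟩ hp1 hp2 hp3 hm
  · exact hJ' j (le_trans (le_max_right _ _) hj) hw ⟨p, hp⟩ hp1 hp2 hp3 hm

end deg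

end Pool.Agent.B595.Cont
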